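import Pool.Agent.H468.G4.Cv
import Pool.Agent.H743.X17.Gold
import Pool.Agent.H743.X17.Fin
import Pool.Agent.H743.X17.IsoAll

/-!
# The rational points of the twists and of the double covers of genus two
-/

set_option autoImplicit false
set_option linter.all false

open scoped Classical

namespace Pool.Agent.H468.G4.Cov

open Pool.Agent.H743.X17 (FinSha finSha_iff' EAB IAB Sys parts iparts pA pB Exc card_tors vr_id sha_iff)
open Pool.Agent.Y700 (VR)
open Pool.Agent.H743.JL.TP (W3 Dt data)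
open Pool.Agent.H743.JL (H4)
open Pool.Agent.TH841.SH.D (Sha)

/-- the inverse of a change of the variables -/
theorem vr_inv {W W' : WeierstrassCurve ℚ} {u r s t : ℚ} (v : VR W W' u r s t) :
    VR W' W u⁻¹ (-r / u ^ 2) (-s / u) ((r * s - t) / u ^ 3) := by
  have h0 := v.u0
  have e1 := v.e1
  have e2 := v.e2
  have e3 := v.e3
  have e4 := v.e4
  have e6 := v.e6
  refine ⟨inv_ne_zero h0, ?_, ?_, ?_, ?_, ?_⟩
  · field_simp
    linear_combination -e1
  · field_simp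
    linear_combination -e2 - s * e1
  · field_simp
    linear_combination -e3 + r * e1
  · field_simp
    linear_combination -e4 - s * e3 + 2 * r * e2 + (2 * r * s - t) * e1
  · field_simp
    linear_combination -e6 + r * e4 - r ^ 2 * e2 + (r * s - t) * e3 - r * (r * s - t) * e1

theorem finSha_vr {W W' : WeierstrassCurve ℚ} {u r s t : ℚ} (v : VR W W' u r s t) (hD : W.Δ ≠ 0)
    (hD' : W'.Δ ≠ 0) : FinSha W ↔ FinSha W' := by
  rw [finSha_iff' v (vr_inv v) hD hD', finSha_iff' (vr_id W) (vr_id W) hD hD]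

/-- the curves `y² = x (x + α m) (x + β m)` -/
def al (j : Fin 4) : ℚ := match j with | 0 => 1 | 1 => 16 | 2 => 9 | 3 => 3

/-- see `al` -/
def be (j : Fin 4) : ℚ := match j with | 0 => -16 | 1 => 25 | 2 => 16 | 3 => -1

/-- see `al` -/
def Ef (j : Fin 4) (m : ℤ) : WeierstrassCurve ℚ := ⟨0, (al j + be j) * m, 0, al j * be j * m ^ 2, 0⟩

theorem delta2 (a b : ℚ) : (⟨0, a, 0, b, 0⟩ : WeierstrassCurve ℚ).Δ = 16 * b ^ 2 * (a ^ 2 - 4 * b) := by
  simp only [WeierstrassCurve.Δ, WeierstrassCurve.b₂, WeierstrassCurve.b₄, WeierstrassCurve.b₆,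
    WeierstrassCurve.b₈]
  ring

theorem ab (j : Fin 4) : al j ≠ 0 ∧ be j ≠ 0 ∧ al j ≠ be j := by
  fin_cases j <;> refine ⟨?_, ?_, ?_⟩ <;> norm_num [al, be]

theorem delta_Ef (j : Fin 4) {m : ℤ} (hm : m ≠ 0) : (Ef j m).Δ ≠ 0 := by
  have hm' : (m : ℚ) ≠ 0 := by exact_mod_cast hm
  obtain ⟨h1, h2, h3⟩ := ab j
  have h4 := sub_ne_zero.2 h3
  have e : (Ef j m).Δ = 16 * (al j * be j * (al j - be j)) ^ 2 * (m : ℚ) ^ 6 := by
    unfold Ef
    rw [delta2]
    ring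
  rw [e]
  positivity

/-! ### the data of the full curves -/

theorem Ef_zero (m : ℤ) : Ef 0 m = EAB m (-16 * m) := by
  unfold Ef EAB al be
  ext <;> simp <;> ring

theorem data0 {m : ℤ} (hm : Squarefree m) : (FinSha (Ef 0 m) ↔ Sys m) ∧
    Nat.card (AddCommGroup.torsion (Ef 0 m).toAffine.Point) = 4 := by
  have hD := delta_Ef 0 hm.ne_zero
  rw [Ef_zero] at hD ⊢
  refine ⟨?_, parts.tors m hm⟩
  rw [finSha_iff' (vr_id _) (vr_id _) hD hD]
  exact sha_iff parts hm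

theorem vr3 (i : Fin 3) {m : ℤ} (hF : Pool.Agent.H743.JL.Fam i m) : ∃ u r s t : ℚ,
    VR (Ef i.succ m) ((W3 i m).map (Int.castRingHom ℚ)) u r s t := by
  have h3 : ∀ i : Fin 3, i = 0 ∨ i = 1 ∨ i = 2 := by decide
  rcases h3 i with rfl | rfl | rfl
  · obtain ⟨h0, h60⟩ : m < 0 ∧ (m % 60 = 13 ∨ m % 60 = 37) := hF
    obtain ⟨k, hk⟩ : ∃ k, m = 4 * k + 1 := ⟨m / 4, by omega⟩
    have e1 : (5 * m - 1) / 4 = 5 * k + 1 := by omega
    have e2 : (19 * m ^ 2 + 1) / 2 = 152 * k ^ 2 + 76 * k + 10 := by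
      have : 19 * m ^ 2 + 1 = 2 * (152 * k ^ 2 + 76 * k + 10) := by rw [hk]; ring
      rw [this]
      exact Int.mul_ediv_cancel_left _ (by norm_num)
    have e3 : (39 * m ^ 3 + 1) / 4 = 624 * k ^ 3 + 468 * k ^ 2 + 117 * k + 10 := by
      have : 39 * m ^ 3 + 1 = 4 * (624 * k ^ 3 + 468 * k ^ 2 + 117 * k + 10) := by rw [hk]; ring
      rw [this]
      exact Int.mul_ediv_cancel_left _ (by norm_num)
    have hW : W3 0 m = ⟨1, 5 * k + 1, 1, -(152 * k ^ 2 + 76 * k + 10),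
        -(624 * k ^ 3 + 468 * k ^ 2 + 117 * k + 10)⟩ := by
      show (⟨1, (5 * m - 1) / 4, 1, -((19 * m ^ 2 + 1) / 2), -((39 * m ^ 3 + 1) / 4)⟩ :
        WeierstrassCurve ℤ) = _
      rw [e1, e2, e3]
    have hk' : (m : ℚ) = 4 * k + 1 := by exact_mod_cast hk
    refine ⟨2, -12 * m, 1, 4, two_ne_zero, ?_, ?_, ?_, ?_, ?_⟩
    · rw [hW]
      show (2 : ℚ) * ((1 : ℤ) : ℚ) = 0 + 2 * 1
      norm_num
    · rw [hW]
      show (2 : ℚ) ^ 2 * ((5 * k + 1 : ℤ) : ℚ) = (16 + 25) * (m : ℚ) - 1 * 0 + 3 * (-12 * m) - 1 ^ 2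
      rw [hk']
      push_cast
      ring
    · rw [hW]
      show (2 : ℚ) ^ 3 * ((1 : ℤ) : ℚ) = 0 + -12 * (m : ℚ) * 0 + 2 * 4
      norm_num
    · rw [hW]
      show (2 : ℚ) ^ 4 * ((-(152 * k ^ 2 + 76 * k + 10) : ℤ) : ℚ) = 16 * 25 * (m : ℚ) ^ 2 - 1 * 0 +
        2 * (-12 * m) * ((16 + 25) * (m : ℚ)) - (4 + -12 * m * 1) * 0 + 3 * (-12 * m) ^ 2 - 2 * 1 * 4
      rw [hk']
      push_cast
      ring
    · rw [hW]
      show (2 : ℚ) ^ 6 * ((-(624 * k ^ 3 + 468 * k ^ 2 + 117 * k + 10) : ℤ) : ℚ) =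
        0 + -12 * (m : ℚ) * (16 * 25 * (m : ℚ) ^ 2) + (-12 * m) ^ 2 * ((16 + 25) * (m : ℚ)) +
          (-12 * m) ^ 3 - 4 * 0 - 4 ^ 2 - (-12 * m) * 4 * 0
      rw [hk']
      push_cast
      ring
  · by_cases h4 : m % 4 = 1
    · obtain ⟨k, hk⟩ : ∃ k, m = 4 * k + 1 := ⟨m / 4, by omega⟩
      have e1 : (25 * m - 1) / 4 = 25 * k + 6 := by omega
      have hW : W3 1 m = ⟨1, 25 * k + 6, 0, 9 * m ^ 2, 0⟩ := by
        rw [show W3 1 m = ⟨1, (25 * m - 1) / 4, 0, 9 * m ^ 2, 0⟩ from if_pos h4, e1]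
      have hk' : (m : ℚ) = 4 * k + 1 := by exact_mod_cast hk
      refine ⟨2, 0, 1, 0, two_ne_zero, ?_, ?_, ?_, ?_, ?_⟩
      · rw [hW]
        show (2 : ℚ) * ((1 : ℤ) : ℚ) = 0 + 2 * 1
        norm_num
      · rw [hW]
        show (2 : ℚ) ^ 2 * ((25 * k + 6 : ℤ) : ℚ) = (9 + 16) * (m : ℚ) - 1 * 0 + 3 * 0 - 1 ^ 2
        rw [hk']
        push_cast
        ring
      · rw [hW]
        show (2 : ℚ) ^ 3 * ((0 : ℤ) : ℚ) = 0 + 0 * 0 + 2 * 0
        norm_num
      · rw [hW]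
        show (2 : ℚ) ^ 4 * ((9 * m ^ 2 : ℤ) : ℚ) = 9 * 16 * (m : ℚ) ^ 2 - 1 * 0 +
          2 * 0 * ((9 + 16) * (m : ℚ)) - (0 + 0 * 1) * 0 + 3 * 0 ^ 2 - 2 * 1 * 0
        push_cast
        ring
      · rw [hW]
        show (2 : ℚ) ^ 6 * ((0 : ℤ) : ℚ) =
          0 + 0 * (9 * 16 * (m : ℚ) ^ 2) + 0 ^ 2 * ((9 + 16) * (m : ℚ)) +
            0 ^ 3 - 0 * 0 - 0 ^ 2 - 0 * 0 * 0
        push_cast
        ring
    · have hW : W3 1 m = ⟨0, 25 * m, 0, 144 * m ^ 2, 0⟩ := if_neg h4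
      have : (W3 1 m).map (Int.castRingHom ℚ) = Ef 2 m := by
        rw [hW]
        ext
        · rfl
        · show ((25 * m : ℤ) : ℚ) = (9 + 16) * m
          push_cast
          ring
        · rfl
        · show ((144 * m ^ 2 : ℤ) : ℚ) = 9 * 16 * m ^ 2
          push_cast
          ring
        · rfl
      refine ⟨1, 0, 0, 0, ?_⟩
      show VR (Ef 2 m) _ 1 0 0 0
      rw [this]
      exact vr_id _
  · have : (W3 2 m).map (Int.castRingHom ℚ) = Ef 3 m := by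
      ext
      · rfl
      · show ((2 * m : ℤ) : ℚ) = (3 + -1) * m
        push_cast
        ring
      · rfl
      · show ((-(3 * m ^ 2) : ℤ) : ℚ) = 3 * -1 * m ^ 2
        push_cast
        ring
      · rfl
    refine ⟨1, 0, 0, 0, ?_⟩
    show VR (Ef 3 m) _ 1 0 0 0
    rw [this]
    exact vr_id _

theorem data3 (i : Fin 3) {m : ℤ} (hs : Squarefree m) (hF : Pool.Agent.H743.JL.Fam i m) :
    (FinSha (Ef i.succ m) ↔ H4 m) ∧
      Nat.card (AddCommGroup.torsion (Ef i.succ m).toAffine.Point) = 4 := by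
  obtain ⟨hmin, ht, -, -, hfin, -⟩ := data i hs hF
  obtain ⟨u, r, s, t, v⟩ := vr3 i hF
  have hD := delta_Ef i.succ hs.ne_zero
  have hD' : ((W3 i m).map (Int.castRingHom ℚ)).Δ ≠ 0 := (vr_inv v).delta_ne hD
  refine ⟨(finSha_vr v hD hD').trans hfin, ?_⟩
  rw [← card_tors (v.equiv hD')]
  exact ht

/-! ### the affine points -/

theorem card_aff {W : WeierstrassCurve ℚ} (hD : W.Δ ≠ 0) (hf : Finite W.toAffine.Point) {n : ℕ}
    (hc : Nat.card (AddCommGroup.torsion W.toAffine.Point) = n + 1) (S : Finset (ℚ × ℚ))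
    (hS : ∀ q ∈ S, W.toAffine.Equation q.1 q.2) : S.card ≤ n := by
  haveI := hf
  have h1 : Nat.card W.toAffine.Point = n + 1 := by
    rw [← hc]
    exact Nat.card_congr ⟨fun x => ⟨x, isOfFinAddOrder_of_finite x⟩, fun x => x.1, fun x => rfl,
      fun x => rfl⟩
  have hnon : ∀ q : S, W.toAffine.Nonsingular q.1.1 q.1.2 :=
    fun q => Pool.Agent.Y700.nonsing hD (hS q.1 q.2)
  let f : Option S → W.toAffine.Point := fun o => match o with
    | none => 0
    | some q => .some q.1.1 q.1.2 (hnon q)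
  have hf' : Function.Injective f := by
    rintro (_ | ⟨⟨a, b⟩, hq⟩) (_ | ⟨⟨a', b'⟩, hq'⟩) h
    · rfl
    · exact absurd h.symm (WeierstrassCurve.Affine.Point.some_ne_zero _)
    · exact absurd h (WeierstrassCurve.Affine.Point.some_ne_zero _)
    · have h2 : a = a' ∧ b = b' := by simpa [f] using h
      obtain ⟨rfl, rfl⟩ := h2
      rfl
  have h2 := Nat.card_le_card_of_injective f hf'
  rw [h1, Nat.card_eq_fintype_card, Fintype.card_option, Fintype.card_coe] at h2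
  omega

/-- the rational points of `y² = x (x + A) (x + B)` -/
theorem full {A B : ℚ} (hA : A ≠ 0) (hB : B ≠ 0) (hAB : A ≠ B)
    (hf : Finite (⟨0, A + B, 0, A * B, 0⟩ : WeierstrassCurve ℚ).toAffine.Point)
    (hc : Nat.card (AddCommGroup.torsion
      (⟨0, A + B, 0, A * B, 0⟩ : WeierstrassCurve ℚ).toAffine.Point) = 4) {x y : ℚ}
    (h : y ^ 2 = x * (x + A) * (x + B)) : y = 0 ∧ x ∈ ({0, -A, -B} : Finset ℚ) := by
  have hy : y = 0 := by
    by_contra hy
    have hD : (⟨0, A + B, 0, A * B, 0⟩ : WeierstrassCurve ℚ).Δ ≠ 0 := by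
      rw [delta2]
      have : (A + B) ^ 2 - 4 * (A * B) = (A - B) ^ 2 := by ring
      rw [this]
      have := sub_ne_zero.2 hAB
      positivity
    have h1 := card_aff hD hf (n := 3) hc {(x, y), (0, 0), (-A, 0), (-B, 0)} (by
      intro q hq
      simp only [Finset.mem_insert, Finset.mem_singleton] at hq
      rw [WeierstrassCurve.Affine.equation_iff]
      show q.2 ^ 2 + 0 * q.1 * q.2 + 0 * q.2 = q.1 ^ 3 + (A + B) * q.1 ^ 2 + A * B * q.1 + 0
      rcases hq with rfl | rfl | rfl | rfl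
      · show y ^ 2 + 0 * x * y + 0 * y = x ^ 3 + (A + B) * x ^ 2 + A * B * x + 0
        linear_combination h
      · norm_num
      · show (0 : ℚ) ^ 2 + 0 * (-A) * 0 + 0 * 0 = (-A) ^ 3 + (A + B) * (-A) ^ 2 + A * B * (-A) + 0
        ring
      · show (0 : ℚ) ^ 2 + 0 * (-B) * 0 + 0 * 0 = (-B) ^ 3 + (A + B) * (-B) ^ 2 + A * B * (-B) + 0
        ring)
    rw [Finset.card_insert_of_notMem, Finset.card_insert_of_notMem, Finset.card_insert_of_notMem,
      Finset.card_singleton] at h1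
    · omega
    · simp only [Finset.mem_singleton, Prod.mk.injEq, and_true]
      intro h2
      exact hAB (by linarith)
    · simp only [Finset.mem_insert, Finset.mem_singleton, Prod.mk.injEq, and_true]
      rintro (h2 | h2)
      · exact hA (by linarith)
      · exact hB (by linarith)
    · simp only [Finset.mem_insert, Finset.mem_singleton, Prod.mk.injEq, not_or]
      exact ⟨fun h => hy h.2, fun h => hy h.2, fun h => hy h.2⟩
  refine ⟨hy, ?_⟩
  rw [hy] at h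
  have h2 : x * (x + A) * (x + B) = 0 := by rw [← h]; ring
  simp only [Finset.mem_insert, Finset.mem_singleton]
  rcases mul_eq_zero.1 h2 with h3 | h3
  · rcases mul_eq_zero.1 h3 with h4 | h4
    · exact Or.inl h4
    · exact Or.inr (Or.inl (by linarith))
  · exact Or.inr (Or.inr (by linarith))

theorem pts (j : Fin 4) {m : ℤ} (hm : m ≠ 0) (hf : Finite (Ef j m).toAffine.Point)
    (hc : Nat.card (AddCommGroup.torsion (Ef j m).toAffine.Point) = 4) {x y : ℚ}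
    (h : y ^ 2 = x * (x + al j * m) * (x + be j * m)) :
    y = 0 ∧ x ∈ ({0, -(al j * m), -(be j * m)} : Finset ℚ) := by
  have hm' : (m : ℚ) ≠ 0 := by exact_mod_cast hm
  obtain ⟨h1, h2, h3⟩ := ab j
  have e : Ef j m = ⟨0, al j * m + be j * m, 0, al j * m * (be j * m), 0⟩ := by
    unfold Ef
    congr 1 <;> ring
  rw [e] at hf hc
  refine full (mul_ne_zero h1 hm') (mul_ne_zero h2 hm') (fun h4 => h3 ?_) hf hc h
  exact mul_right_cancel₀ hm' h4

/-! ### the other curves of conductor 17 -/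

theorem finSha17 {m : ℤ} (hm : m ≠ 0) (j : Fin 3) (h : FinSha (Ef 0 m)) :
    Finite (IAB (pA j m) (pB j m)).toAffine.Point := by
  have hm' : (m : ℚ) ≠ 0 := by exact_mod_cast hm
  have h3 : ∀ i : Fin 3, i = 0 ∨ i = 1 ∨ i = 2 := by decide
  have hA : pA j m ≠ 0 := by
    rcases h3 j with rfl | rfl | rfl
    · exact hm
    · exact neg_ne_zero.2 hm
    · exact mul_ne_zero (by norm_num) hm
  have hB : pB j m ≠ 0 := by
    rcases h3 j with rfl | rfl | rfl <;> exact mul_ne_zero (by norm_num) hm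
  have hAB : pA j m ≠ pB j m := by
    rcases h3 j with rfl | rfl | rfl
    · show m ≠ -16 * m
      omega
    · show -m ≠ -17 * m
      omega
    · show 16 * m ≠ 17 * m
      omega
  have hv : ∃ r : ℚ, VR (Ef 0 m) (EAB (pA j m) (pB j m)) 1 r 0 0 := by
    rcases h3 j with rfl | rfl | rfl
    · refine ⟨0, one_ne_zero, ?_, ?_, ?_, ?_, ?_⟩
      · show (1 : ℚ) * 0 = 0 + 2 * 0
        norm_num
      · show (1 : ℚ) ^ 2 * ((m : ℚ) + (-16 * m : ℤ)) = (1 + -16) * m - 0 * 0 + 3 * 0 - 0 ^ 2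
        push_cast
        ring
      · show (1 : ℚ) ^ 3 * 0 = 0 + 0 * 0 + 2 * 0
        norm_num
      · show (1 : ℚ) ^ 4 * ((m : ℚ) * (-16 * m : ℤ)) = 1 * -16 * m ^ 2 - 0 * 0 +
          2 * 0 * ((1 + -16) * m) - (0 + 0 * 0) * 0 + 3 * 0 ^ 2 - 2 * 0 * 0
        push_cast
        ring
      · show (1 : ℚ) ^ 6 * 0 = 0 + 0 * (1 * -16 * m ^ 2) + 0 ^ 2 * ((1 + -16) * m) + 0 ^ 3 - 0 * 0 -
          0 ^ 2 - 0 * 0 * 0
        ring
    · refine ⟨-m, one_ne_zero, ?_, ?_, ?_, ?_, ?_⟩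
      · show (1 : ℚ) * 0 = 0 + 2 * 0
        norm_num
      · show (1 : ℚ) ^ 2 * (((-m : ℤ) : ℚ) + (-17 * m : ℤ)) = (1 + -16) * m - 0 * 0 + 3 * (-m) - 0 ^ 2
        push_cast
        ring
      · show (1 : ℚ) ^ 3 * 0 = 0 + (-m) * 0 + 2 * 0
        ring
      · show (1 : ℚ) ^ 4 * (((-m : ℤ) : ℚ) * (-17 * m : ℤ)) = 1 * -16 * m ^ 2 - 0 * 0 +
          2 * (-m) * ((1 + -16) * m) - (0 + (-m) * 0) * 0 + 3 * (-m) ^ 2 - 2 * 0 * 0
        push_cast
        ring
      · show (1 : ℚ) ^ 6 * 0 = 0 + (-m) * (1 * -16 * m ^ 2) + (-m) ^ 2 * ((1 + -16) * m) + (-m) ^ 3 -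
          0 * 0 - 0 ^ 2 - (-m) * 0 * 0
        ring
    · refine ⟨16 * m, one_ne_zero, ?_, ?_, ?_, ?_, ?_⟩
      · show (1 : ℚ) * 0 = 0 + 2 * 0
        norm_num
      · show (1 : ℚ) ^ 2 * (((16 * m : ℤ) : ℚ) + (17 * m : ℤ)) = (1 + -16) * m - 0 * 0 +
          3 * (16 * m) - 0 ^ 2
        push_cast
        ring
      · show (1 : ℚ) ^ 3 * 0 = 0 + (16 * m) * 0 + 2 * 0
        ring
      · show (1 : ℚ) ^ 4 * (((16 * m : ℤ) : ℚ) * (17 * m : ℤ)) = 1 * -16 * m ^ 2 - 0 * 0 +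
          2 * (16 * m) * ((1 + -16) * m) - (0 + (16 * m) * 0) * 0 + 3 * (16 * m) ^ 2 - 2 * 0 * 0
        push_cast
        ring
      · show (1 : ℚ) ^ 6 * 0 = 0 + (16 * m) * (1 * -16 * m ^ 2) + (16 * m) ^ 2 * ((1 + -16) * m) +
          (16 * m) ^ 3 - 0 * 0 - 0 ^ 2 - (16 * m) * 0 * 0
        ring
  obtain ⟨r, v⟩ := hv
  have hD := delta_Ef 0 hm
  have hD' : (EAB (pA j m) (pB j m)).Δ ≠ 0 := (vr_inv v).delta_ne hD
  obtain ⟨g1, g2⟩ := (finSha_vr v hD hD').1 h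
  exact (iparts.iabs1 _ _ hA hB hAB g1 (fun x hx => g2 1 x (by rw [pow_one]; exact hx))).1

theorem tors17 {m : ℤ} (hm : Squarefree m) (hE : ¬ Exc m) (j : Fin 3) :
    Nat.card (AddCommGroup.torsion (IAB (pA j m) (pB j m)).toAffine.Point) = 2 :=
  iparts.itors j m hm hE

theorem pts17 {m : ℤ} (hm : Squarefree m) (hE : ¬ Exc m) (j : Fin 3) (h : FinSha (Ef 0 m)) {x y : ℚ}
    (hxy : y ^ 2 = x ^ 3 - 2 * (pA j m + pB j m) * x ^ 2 + (pA j m - pB j m) ^ 2 * x) :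
    y = 0 ∧ x = 0 := by
  by_contra hne
  have hD : (IAB (pA j m) (pB j m)).Δ ≠ 0 := by
    have hm' : (m : ℚ) ≠ 0 := by exact_mod_cast hm.ne_zero
    unfold IAB
    rw [delta2]
    have e : (-2 * ((pA j m : ℚ) + pB j m)) ^ 2 - 4 * ((pA j m : ℚ) - pB j m) ^ 2 =
      16 * (pA j m) * (pB j m) := by ring
    rw [e]
    have h3 : ∀ i : Fin 3, i = 0 ∨ i = 1 ∨ i = 2 := by decide
    have hA : (pA j m : ℚ) ≠ 0 := by
      rcases h3 j with rfl | rfl | rfl
      · exact hm'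
      · show ((-m : ℤ) : ℚ) ≠ 0
        push_cast
        exact neg_ne_zero.2 hm'
      · show ((16 * m : ℤ) : ℚ) ≠ 0
        push_cast
        exact mul_ne_zero (by norm_num) hm'
    have hB : (pB j m : ℚ) ≠ 0 := by
      rcases h3 j with rfl | rfl | rfl
      · show ((-16 * m : ℤ) : ℚ) ≠ 0
        push_cast
        exact mul_ne_zero (by norm_num) hm'
      · show ((-17 * m : ℤ) : ℚ) ≠ 0
        push_cast
        exact mul_ne_zero (by norm_num) hm'
      · show ((17 * m : ℤ) : ℚ) ≠ 0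
        push_cast
        exact mul_ne_zero (by norm_num) hm'
    have hAB : (pA j m : ℚ) - pB j m ≠ 0 := by
      rcases h3 j with rfl | rfl | rfl
      · have : ((m : ℤ) : ℚ) - ((-16 * m : ℤ) : ℚ) = 17 * m := by push_cast; ring
        show ((m : ℤ) : ℚ) - ((-16 * m : ℤ) : ℚ) ≠ 0
        rw [this]
        exact mul_ne_zero (by norm_num) hm'
      · have : ((-m : ℤ) : ℚ) - ((-17 * m : ℤ) : ℚ) = 16 * m := by push_cast; ring
        show ((-m : ℤ) : ℚ) - ((-17 * m : ℤ) : ℚ) ≠ 0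
        rw [this]
        exact mul_ne_zero (by norm_num) hm'
      · have : ((16 * m : ℤ) : ℚ) - ((17 * m : ℤ) : ℚ) = -m := by push_cast; ring
        show ((16 * m : ℤ) : ℚ) - ((17 * m : ℤ) : ℚ) ≠ 0
        rw [this]
        exact neg_ne_zero.2 hm'
    refine mul_ne_zero (mul_ne_zero (by norm_num) (pow_ne_zero 2 (pow_ne_zero 2 hAB))) ?_
    exact mul_ne_zero (mul_ne_zero (by norm_num) hA) hB
  have h1 := card_aff hD (finSha17 hm.ne_zero j h) (n := 1) (tors17 hm hE j) {(x, y), (0, 0)} (by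
    intro q hq
    simp only [Finset.mem_insert, Finset.mem_singleton] at hq
    rw [WeierstrassCurve.Affine.equation_iff]
    show q.2 ^ 2 + 0 * q.1 * q.2 + 0 * q.2 = q.1 ^ 3 + -2 * ((pA j m : ℚ) + pB j m) * q.1 ^ 2 +
      ((pA j m : ℚ) - pB j m) ^ 2 * q.1 + 0
    rcases hq with rfl | rfl
    · show y ^ 2 + 0 * x * y + 0 * y = x ^ 3 + -2 * ((pA j m : ℚ) + pB j m) * x ^ 2 +
        ((pA j m : ℚ) - pB j m) ^ 2 * x + 0
      linear_combination hxy
    · norm_num)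
  rw [Finset.card_insert_of_notMem, Finset.card_singleton] at h1
  · omega
  · simp only [Finset.mem_singleton, Prod.mk.injEq, not_and]
    intro h2 h3
    exact hne ⟨h3, h2⟩

/-! ### the double covers of genus two -/

open Polynomial

/-- the double cover -/
noncomputable def cover (f : ℚ[X]) (u v : ℚ) : ℚ[X] := f.comp (C u * X ^ 2 + C v)

/-- the affine rational points of `y² = f(x)` -/
def affine (f : ℚ[X]) : Set (ℚ × ℚ) := {q | q.2 ^ 2 = f.eval q.1}

theorem ne0 {u : ℚ} (w : ℚ) (hu : u ≠ 0) : (C u * X ^ 2 + C w : ℚ[X]) ≠ 0 := by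
  intro h0
  have := congrArg (fun p : ℚ[X] => p.coeff 2) h0
  simp [coeff_C] at this
  exact hu this

theorem cov {f : ℚ[X]} {R : Finset ℚ} {k : ℚ} (hk : k ≠ 0)
    (hR : ∀ x y : ℚ, y ^ 2 = k * f.eval x → y = 0 ∧ x ∈ R) {u v : ℚ} (hu : u ≠ 0) :
    (∀ q ∈ affine (C k * cover f u v), q.2 = 0) ∧
      (affine (C k * cover f u v)).ncard ≤ 2 * R.card := by
  have key : ∀ q ∈ affine (C k * cover f u v), q.2 = 0 ∧ u * q.1 ^ 2 + v ∈ R := by
    intro q hq
    have h1 : q.2 ^ 2 = k * f.eval (u * q.1 ^ 2 + v) := by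
      have h2 : q.2 ^ 2 = (C k * cover f u v).eval q.1 := hq
      rw [h2]
      unfold cover
      simp
    exact hR _ _ h1
  refine ⟨fun q hq => (key q hq).1, ?_⟩
  have hsub : affine (C k * cover f u v) ⊆ ((R.biUnion fun r =>
      ((C u * X ^ 2 + C (v - r) : ℚ[X]).roots.toFinset ×ˢ ({0} : Finset ℚ)) : Finset (ℚ × ℚ)) :
        Set (ℚ × ℚ)) := by
    intro q hq
    obtain ⟨h1, h2⟩ := key q hq
    simp only [Finset.coe_biUnion, Set.mem_iUnion, Finset.mem_coe, Finset.mem_product,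
      Finset.mem_singleton, Multiset.mem_toFinset]
    refine ⟨_, h2, ?_, h1⟩
    rw [mem_roots', IsRoot.def]
    refine ⟨ne0 _ hu, ?_⟩
    rw [eval_add, eval_mul, eval_C, eval_pow, eval_X, eval_C]
    ring
  refine (Set.ncard_le_ncard hsub (Finset.finite_toSet _)).trans ?_
  rw [Set.ncard_coe_finset]
  refine (Finset.card_biUnion_le).trans ?_
  refine (Finset.sum_le_card_nsmul _ _ 2 fun r _ => ?_).trans (by rw [smul_eq_mul, mul_comm])
  rw [Finset.card_product, Finset.card_singleton, mul_one]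
  refine (Multiset.toFinset_card_le _).trans ((card_roots' _).trans ?_)
  rw [natDegree_add_C]
  exact natDegree_C_mul_X_pow_le u 2

end Pool.Agent.H468.G4.Cov
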