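import Pool.Agent.H468.G4.Loc
import Pool.Agent.H468.WJ.Lim

/-!
# The joint law in the classes given by finitely many places, for real bounds
-/

set_option autoImplicit false
set_option linter.all false

open scoped Classical

namespace Pool.Agent.H468.G4

open Finset Filter Topology
open Pool.Agent.H743.JL (Fam tw H4 Qc2 fi2)
open Pool.Agent.H743.X17 (Rt Sys Nr Nr_eq Nr_mono num tw_spec)
open Pool.Agent.N855.GF.Lc17 (Loc)
open Pool.Agent.N919.BS (NS)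
open Pool.Agent.H468.WM (opf Wt cnt)
open Pool.Agent.H468.WJ (Pat kp indep_pat)

theorem tw_sf {t d : ℤ} (ht : Squarefree t) (hd : Squarefree d) : Squarefree (tw t d) :=
  Pool.Agent.N855.GF.Tw.tw_sqf ht hd

theorem tw_sq {p : ℕ} [Fact p.Prime] {t d d₀ : ℤ} (ht : Squarefree t) (hd : Squarefree d)
    (hd₀ : Squarefree d₀) (h : IsSquare ((d * d₀ : ℤ) : ℚ_[p])) :
    IsSquare ((tw t d * tw t d₀ : ℤ) : ℚ_[p]) := by
  obtain ⟨g, hg, h1⟩ := tw_spec ht hd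
  obtain ⟨g', hg', h2⟩ := tw_spec ht hd₀
  have h1' : t * d = (g : ℤ) ^ 2 * tw t d := h1
  have h2' : t * d₀ = (g' : ℤ) ^ 2 * tw t d₀ := h2
  obtain ⟨z, hz⟩ := h
  have hgp : (g : ℚ_[p]) ≠ 0 := by exact_mod_cast hg
  have hgp' : (g' : ℚ_[p]) ≠ 0 := by exact_mod_cast hg'
  have e1 : (t : ℚ_[p]) * d = (g : ℚ_[p]) ^ 2 * (tw t d : ℤ) := by exact_mod_cast congrArg (fun n : ℤ => (n : ℚ_[p])) h1'
  have e2 : (t : ℚ_[p]) * d₀ = (g' : ℚ_[p]) ^ 2 * (tw t d₀ : ℤ) := by exact_mod_cast congrArg (fun n : ℤ => (n : ℚ_[p])) h2'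
  push_cast at hz
  refine ⟨t * z / (g * g'), ?_⟩
  push_cast
  field_simp
  linear_combination (-((g' : ℚ_[p]) ^ 2 * (tw t d₀ : ℤ))) * e1 - (t : ℚ_[p]) * d * e2 + (t : ℚ_[p]) ^ 2 * hz

theorem tw_pos {t d d₀ : ℤ} (ht : Squarefree t) (hd : Squarefree d)
    (hd₀ : Squarefree d₀) (h : 0 < d * d₀) : 0 < tw t d * tw t d₀ := by
  obtain ⟨g, hg, h1⟩ := tw_spec ht hd
  obtain ⟨g', hg', h2⟩ := tw_spec ht hd₀
  have h1' : t * d = (g : ℤ) ^ 2 * tw t d := h1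
  have h2' : t * d₀ = (g' : ℤ) ^ 2 * tw t d₀ := h2
  have e : t ^ 2 * (d * d₀) = ((g : ℤ) * g') ^ 2 * (tw t d * tw t d₀) := by
    linear_combination (t * d₀) * h1' + ((g : ℤ) ^ 2 * tw t d) * h2'
  have ht0 := ht.ne_zero
  have h3 : 0 < t ^ 2 * (d * d₀) := mul_pos (by positivity) h
  rw [e] at h3
  exact (pos_iff_pos_of_mul_pos h3).1 (by positivity)


/-- the families of `X_0(15)`, `X_0(21)`, `X_0(24)` -/
theorem fam_of (i : Fin 3) {m m' : ℤ} (hm : Squarefree m) (hm' : Squarefree m') (h0 : 0 < m * m')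
    (h2 : ∀ [Fact (Nat.Prime 2)], IsSquare ((m * m' : ℤ) : ℚ_[2]))
    (h3 : ∀ [Fact (Nat.Prime 3)], IsSquare ((m * m' : ℤ) : ℚ_[3]))
    (h5 : ∀ [Fact (Nat.Prime 5)], IsSquare ((m * m' : ℤ) : ℚ_[5]))
    (h7 : ∀ [Fact (Nat.Prime 7)], IsSquare ((m * m' : ℤ) : ℚ_[7])) (hF : Fam i m) : Fam i m' := by
  have h3' : ∀ i : Fin 3, i = 0 ∨ i = 1 ∨ i = 2 := by decide
  have hneg : m < 0 → m' < 0 := fun h => by
    by_contra h1
    have : m * m' ≤ 0 := mul_nonpos_of_nonpos_of_nonneg h.le (by omega)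
    omega
  have a8 := mod8 hm' h2
  have a3 := mod3 hm' h3
  rcases h3' i with rfl | rfl | rfl
  · obtain ⟨b0, b1⟩ : m < 0 ∧ (m % 60 = 13 ∨ m % 60 = 37) := hF
    have a5 := mod5 hm' h5 (by omega)
    have a3' := a3 (by omega)
    refine ⟨hneg b0, ?_⟩
    have b8 : m' % 8 = 1 ∨ m' % 8 = 5 := by
      have : m % 8 = 1 ∨ m % 8 = 5 := by omega
      rcases this with h | h
      · exact Or.inl (a8.1 h)
      · exact Or.inr (a8.2 h)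
    omega
  · obtain ⟨b0, b1, b2⟩ : m < 0 ∧ m % 3 ≠ 1 ∧ (m % 7 = 0 ∨ m % 7 = 1 ∨ m % 7 = 2 ∨ m % 7 = 4) := hF
    refine ⟨hneg b0, fun h => b1 ?_, mod7 hm hm' h7 b2⟩
    exact mod3 hm (fun {_} => comm_sq h3) h
  · obtain ⟨b0, b1⟩ : m < 0 ∧ m % 24 = 13 := hF
    refine ⟨hneg b0, ?_⟩
    have a3' := a3 (by omega)
    have b8 := a8.2 (by omega)
    omega

/-- the root number -/
theorem rt_of {m m' : ℤ} (hm : Squarefree m) (hm' : Squarefree m') (h0 : 0 < m * m')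
    (h17 : ∀ [Fact (Nat.Prime 17)], IsSquare ((m * m' : ℤ) : ℚ_[17])) : Rt m ↔ Rt m' := by
  have e := mod17 hm hm' h17
  have h1 : 0 < m ↔ 0 < m' := pos_iff_pos_of_mul_pos h0
  have h2 : m < 0 ↔ m' < 0 := neg_iff_neg_of_mul_pos h0
  unfold Rt
  rw [e, h1, h2]

theorem qc_of {T T' : Finset ℤ} {S : Finset ℕ} {d₀ d : ℤ} (hT : ∀ t ∈ T, Squarefree t)
    (hT' : ∀ t ∈ T', Squarefree t) (h17 : 17 ∈ S) (hd₀ : Squarefree d₀) (hd : Squarefree d) :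
    Qc2 T T' True S d₀ d ↔ Loc True S d₀ d := by
  refine ⟨fun h => h.2, fun h => ⟨⟨fun t ht => ?_, fun t ht => ?_⟩, h⟩⟩
  · refine rt_of (tw_sf (hT t ht) hd) (tw_sf (hT t ht) hd₀) (tw_pos (hT t ht) hd hd₀ (h.1 trivial)) ?_
    intro _
    exact tw_sq (hT t ht) hd hd₀ (h.2 17 h17)
  · exact neg_iff_neg_of_mul_pos (tw_pos (hT' t ht) hd hd₀ (h.1 trivial))

/-- the family is constant on the class -/
theorem fam_cls (i : Fin 3) {S : Finset ℕ} {t d₀ d : ℤ} (ht : Squarefree t) (hd₀ : Squarefree d₀)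
    (hd : Squarefree d) (h2 : 2 ∈ S) (h3 : 3 ∈ S) (h5 : 5 ∈ S) (h7 : 7 ∈ S) (h : Loc True S d₀ d) :
    Fam i (tw t d₀) → Fam i (tw t d) := by
  have hsw : ∀ (p : ℕ) [Fact p.Prime], p ∈ S → IsSquare ((tw t d₀ * tw t d : ℤ) : ℚ_[p]) := by
    intro p _ hp
    exact comm_sq (tw_sq ht hd hd₀ (h.2 p hp))
  have h0 : 0 < tw t d₀ * tw t d := by
    rw [mul_comm]
    exact tw_pos ht hd hd₀ (h.1 trivial)
  exact fam_of i (tw_sf ht hd₀) (tw_sf ht hd) h0 (fun {_} => hsw 2 h2) (fun {_} => hsw 3 h3)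
    (fun {_} => hsw 5 h5) (fun {_} => hsw 7 h7)

theorem num_le {P Q : ℤ → Prop} (h : ∀ m, Squarefree m → P m → Q m) (X : ℕ) : num P X ≤ num Q X := by
  unfold num
  refine card_le_card fun m hm => ?_
  rw [mem_filter] at hm ⊢
  exact ⟨hm.1, hm.2.1, h m hm.2.1 hm.2.2⟩

theorem num_eq {P Q : ℤ → Prop} (h : ∀ m, Squarefree m → (P m ↔ Q m)) (X : ℕ) : num P X = num Q X :=
  le_antisymm (num_le (fun m hm => (h m hm).1) X) (num_le (fun m hm => (h m hm).2) X)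

theorem wt_mem {q : ℕ} (V : Set (ℕ → ℕ)) : Wt q fun S => cnt q S ∈ V := by
  intro S S' h
  show cnt q S ∈ V ↔ cnt q S' ∈ V
  rw [h]

/-- **the joint law**, uniformly in the conditions on the numbers of the prime factors -/
theorem law (T T' : Finset ℤ) (S : Finset ℕ) (d₀ : ℤ) (hT : ∀ t ∈ T, Squarefree t ∧ Rt (tw t d₀))
    (hT' : ∀ t ∈ T', Squarefree t ∧ tw t d₀ < 0) (hS : ∀ p ∈ S, p.Prime) (h17 : 17 ∈ S)
    (hd : Squarefree d₀) {q : ℕ} (hq : 0 < q) {A A' : Finset ℤ} (hA : A ⊆ T) (hA' : A' ⊆ T')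
    {F : ℤ → Prop} (Z : Finset ℤ)
    (hF : ∀ d, Squarefree d → d ∉ Z → Loc True S d₀ d → (F d ↔ Pat T A T' A' d))
    (ε : ℝ) (hε : 0 < ε) : ∃ X₀ : ℝ, ∀ X : ℝ, X₀ ≤ X → ∀ V : Set (ℕ → ℕ),
      |(Nr (fun d => Loc True S d₀ d ∧ F d ∧ cnt q (opf d) ∈ V) X : ℝ) -
        kp T A T' A' * Nr (fun d => Loc True S d₀ d ∧ cnt q (opf d) ∈ V) X| ≤ ε * X := by
  have hq1 : ∀ d, Squarefree d → (Qc2 T T' True S d₀ d ↔ Loc True S d₀ d) := fun d hd' =>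
    qc_of (fun t ht => (hT t ht).1) (fun t ht => (hT' t ht).1) h17 hd hd'
  have hfil : T.filter (fun t => Rt (tw t d₀)) = T := by
    rw [Finset.filter_eq_self]
    exact fun t ht => (hT t ht).2
  obtain ⟨X₁, h1⟩ := indep_pat T T' True S d₀ (fun t ht => (hT t ht).1) hT' hS hd hq (A := A)
    (A' := A') (by rw [hfil]; exact hA) hA' (F := F) Z
    (fun d h2 h3 h4 => hF d h2 h3 ((hq1 d h2).1 h4)) ε hε
  rw [hfil] at h1
  refine ⟨X₁ + 1, fun X hX V => ?_⟩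
  have hX0 : (0 : ℝ) < X := by
    have : (0 : ℝ) ≤ X₁ := Nat.cast_nonneg _
    linarith
  have hc1 : X ≤ ⌈X⌉₊ := Nat.le_ceil X
  have hc2 : (⌈X⌉₊ : ℝ) < X + 1 := Nat.ceil_lt_add_one hX0.le
  have hc3 : X₁ + 1 ≤ ⌈X⌉₊ := by
    have : ((X₁ + 1 : ℕ) : ℝ) ≤ ⌈X⌉₊ := by push_cast; linarith
    exact_mod_cast this
  have h2 := h1 (⌈X⌉₊ - 1) (by omega) _ (wt_mem V)
  rw [Nr_eq _ hX0, Nr_eq _ hX0]
  have e1 : num (fun d => Qc2 T T' True S d₀ d ∧ F d ∧ cnt q (opf d) ∈ V) (⌈X⌉₊ - 1) =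
      num (fun d => Loc True S d₀ d ∧ F d ∧ cnt q (opf d) ∈ V) (⌈X⌉₊ - 1) :=
    num_eq (fun d hd' => and_congr_left fun _ => hq1 d hd') _
  have e2 : num (fun d => Qc2 T T' True S d₀ d ∧ cnt q (opf d) ∈ V) (⌈X⌉₊ - 1) =
      num (fun d => Loc True S d₀ d ∧ cnt q (opf d) ∈ V) (⌈X⌉₊ - 1) :=
    num_eq (fun d hd' => and_congr_left fun _ => hq1 d hd') _
  rw [e1, e2] at h2
  refine h2.trans ?_
  refine mul_le_mul_of_nonneg_left ?_ hε.le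
  have : ((⌈X⌉₊ - 1 : ℕ) : ℝ) = (⌈X⌉₊ : ℝ) - 1 := by
    rw [Nat.cast_sub (by omega)]
    norm_num
  rw [this]
  linarith

/-- the class has positive lower density -/
theorem low (S : Finset ℕ) (d₀ : ℤ) (hS : ∀ p ∈ S, p.Prime) (h17 : 17 ∈ S) (hd : Squarefree d₀) :
    ∃ δ X₀ : ℝ, 0 < δ ∧ ∀ X : ℝ, X₀ ≤ X → δ * X ≤ (Nr (Loc True S d₀) X : ℝ) := by
  obtain ⟨⟨c, X₁, hc, h1⟩, -⟩ := fi2 ∅ ∅ True S d₀ (fun t ht => absurd ht (notMem_empty t))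
    (fun t ht => absurd ht (notMem_empty t)) hS hd
  refine ⟨c / 2, X₁ + 2, by positivity, fun X hX => ?_⟩
  have hX1 : (0 : ℝ) ≤ X₁ := Nat.cast_nonneg _
  have hX0 : (0 : ℝ) < X := by linarith
  have hc1 : X ≤ ⌈X⌉₊ := Nat.le_ceil X
  have hc3 : X₁ + 1 ≤ ⌈X⌉₊ := by
    have : ((X₁ + 1 : ℕ) : ℝ) ≤ ⌈X⌉₊ := by push_cast; linarith
    exact_mod_cast this
  have h2 := h1 (⌈X⌉₊ - 1) (by omega)
  rw [Nr_eq _ hX0]
  have e1 : NS (Qc2 ∅ ∅ True S d₀) (⌈X⌉₊ - 1) = num (Loc True S d₀) (⌈X⌉₊ - 1) :=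
    num_eq (fun d hd' => qc_of (fun t ht => absurd ht (notMem_empty t))
      (fun t ht => absurd ht (notMem_empty t)) h17 hd hd') _
  rw [e1] at h2
  refine le_trans ?_ h2
  have h3 : ((⌈X⌉₊ - 1 : ℕ) : ℝ) = (⌈X⌉₊ : ℝ) - 1 := by
    rw [Nat.cast_sub (by omega)]
    norm_num
  rw [h3]
  have h4 : X / 2 ≤ (⌈X⌉₊ : ℝ) - 1 := by linarith
  calc c / 2 * X = c * (X / 2) := by ring
    _ ≤ c * ((⌈X⌉₊ : ℝ) - 1) := mul_le_mul_of_nonneg_left h4 hc.le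

/-- the proportion -/
theorem lim (P G : ℤ → Prop) (κ : ℝ) {δ X₁ : ℝ} (hδ : 0 < δ)
    (h1 : ∀ X : ℝ, X₁ ≤ X → δ * X ≤ (Nr P X : ℝ))
    (h2 : ∀ ε : ℝ, 0 < ε → ∃ X₀ : ℝ, ∀ X : ℝ, X₀ ≤ X →
      |(Nr (fun d => P d ∧ G d) X : ℝ) - κ * Nr P X| ≤ ε * X) :
    Tendsto (fun X : ℝ => (Nr (fun d => P d ∧ G d) X : ℝ) / (Nr P X : ℝ)) atTop (𝓝 κ) := by
  rw [Metric.tendsto_atTop]
  intro ε hε
  obtain ⟨X₀, h3⟩ := h2 (ε * δ / 2) (by positivity)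
  refine ⟨max (max X₀ X₁) 1, fun X hX => ?_⟩
  have a1 : X₀ ≤ X := (le_max_left _ _).trans ((le_max_left _ _).trans hX)
  have a2 : X₁ ≤ X := (le_max_right _ _).trans ((le_max_left _ _).trans hX)
  have a3 : 1 ≤ X := (le_max_right _ _).trans hX
  have b1 := h1 X a2
  have b2 := h3 X a1
  have hN : 0 < (Nr P X : ℝ) := lt_of_lt_of_le (by positivity) b1
  rw [Real.dist_eq, div_sub' hN.ne', abs_div, abs_of_pos hN, div_lt_iff₀ hN, mul_comm (Nr P X : ℝ) κ]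
  refine lt_of_le_of_lt b2 ?_
  have h5 : ε * (δ * X) ≤ ε * (Nr P X : ℝ) := mul_le_mul_of_nonneg_left b1 hε.le
  have h6 : 0 < ε * δ * X := by positivity
  linarith

theorem num_card (P : ℤ → Prop) (X : ℕ) : num P X ≤ 2 * X + 1 := by
  unfold num
  refine (card_filter_le _ _).trans ?_
  rw [Int.card_Icc]
  omega

/-- positive lower density -/
theorem pos_liminf (P : ℤ → Prop) {δ X₁ : ℝ} (hδ : 0 < δ)
    (h1 : ∀ X : ℝ, X₁ ≤ X → δ * X ≤ (Nr P X : ℝ)) :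
    0 < liminf (fun X : ℝ => (Nr P X : ℝ) / (Nr (fun _ => True) X : ℝ)) atTop := by
  refine lt_of_lt_of_le (by positivity : 0 < δ / 3) (le_liminf_of_le ?_ ?_)
  · refine IsBoundedUnder.isCoboundedUnder_ge ⟨1, ?_⟩
    rw [eventually_map]
    refine Eventually.of_forall fun X => ?_
    apply div_le_one_of_le₀
    · exact_mod_cast Nr_mono (fun _ _ _ => trivial) X
    · positivity
  · filter_upwards [eventually_ge_atTop (max X₁ 1)] with X hX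
    have a1 : X₁ ≤ X := (le_max_left _ _).trans hX
    have a2 : 1 ≤ X := (le_max_right _ _).trans hX
    have hX0 : 0 < X := by linarith
    have b1 := h1 X a1
    have b2 : (Nr P X : ℝ) ≤ Nr (fun _ => True) X := by
      exact_mod_cast Nr_mono (fun _ _ _ => trivial) X
    have hN : 0 < (Nr (fun _ => True) X : ℝ) := lt_of_lt_of_le (by positivity) (b1.trans b2)
    have b3 : (Nr (fun _ => True) X : ℝ) ≤ 3 * X := by
      rw [Nr_eq _ hX0]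
      have c1 : num (fun _ => True) (⌈X⌉₊ - 1) ≤ 2 * (⌈X⌉₊ - 1) + 1 := num_card _ _
      have c2 : (⌈X⌉₊ : ℝ) < X + 1 := Nat.ceil_lt_add_one hX0.le
      have c3 : 1 ≤ ⌈X⌉₊ := Nat.one_le_iff_ne_zero.2 (Nat.ceil_pos.2 hX0).ne'
      have c4 : (num (fun _ => True) (⌈X⌉₊ - 1) : ℝ) ≤ 2 * ((⌈X⌉₊ : ℝ) - 1) + 1 := by
        have : ((2 * (⌈X⌉₊ - 1) + 1 : ℕ) : ℝ) = 2 * ((⌈X⌉₊ : ℝ) - 1) + 1 := by
          push_cast [Nat.cast_sub c3]
          ring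
        rw [← this]
        exact_mod_cast c1
      linarith
    rw [le_div_iff₀ hN]
    calc δ / 3 * (Nr (fun _ => True) X : ℝ) ≤ δ / 3 * (3 * X) :=
          mul_le_mul_of_nonneg_left b3 (by positivity)
      _ = δ * X := by ring
      _ ≤ Nr P X := b1

end Pool.Agent.H468.G4
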