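import Pool.Agent.H468.G4.Cov
import Pool.Agent.H468.G4.Law
import Pool.Agent.H743.X17.IsoFin

/-!
# The rational points of the twists of the curves of genus two
-/

set_option autoImplicit false
set_option linter.all false

open scoped Classical

namespace Pool.Agent.H468.G4.Cov

open Filter Topology
open Pool.Agent.H743.X17 (FinSha Sys parts pA pB Exc tw_spec tw_tw tw_one num Rt lim_closeN
  num_close top_all dens_tw crit')
open Pool.Agent.N919.BS (Rt17)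
open Pool.Agent.N855.GF.Tw (tw tw_sqf)
open Pool.Agent.H743.JL (H4)

theorem tw_pt (j : Fin 4) {e d : ℤ} (he : Squarefree e) (hd : Squarefree d)
    (hf : Finite (Ef j (tw e d)).toAffine.Point)
    (hc : Nat.card (AddCommGroup.torsion (Ef j (tw e d)).toAffine.Point) = 4) {x y : ℚ}
    (h : y ^ 2 = d * (x * (x + al j * e) * (x + be j * e))) :
    y = 0 ∧ x ∈ ({0, -(al j * e), -(be j * e)} : Finset ℚ) := by
  obtain ⟨g, hg, hgm⟩ := tw_spec he hd
  have hm := tw_sqf he hd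
  have hd0 : (d : ℚ) ≠ 0 := by exact_mod_cast hd.ne_zero
  have hg0 : (g : ℚ) ≠ 0 := by exact_mod_cast hg
  have hq : (e : ℚ) * d = (g : ℚ) ^ 2 * (tw e d : ℤ) := by
    exact_mod_cast congrArg (fun n : ℤ => (n : ℚ)) hgm
  have hmq : ((tw e d : ℤ) : ℚ) = e * d / g ^ 2 := by
    rw [hq]
    field_simp
  have h1 := pts j hm.ne_zero hf hc (x := d * x / g ^ 2) (y := d * y / g ^ 3) (by
    rw [hmq]
    have e1 : (d * y / (g : ℚ) ^ 3) ^ 2 = d ^ 2 * y ^ 2 / g ^ 6 := by ring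
    rw [e1, h]
    field_simp)
  have hy : y = 0 := by
    have h2 := h1.1
    rw [div_eq_zero_iff] at h2
    rcases h2 with h2 | h2
    · exact (mul_eq_zero.1 h2).resolve_left hd0
    · exact absurd h2 (pow_ne_zero 3 hg0)
  refine ⟨hy, ?_⟩
  rw [hy] at h
  have h2 : x * (x + al j * e) * (x + be j * e) = 0 := by
    have h3 : (d : ℚ) * (x * (x + al j * e) * (x + be j * e)) = 0 := by rw [← h]; ring
    exact (mul_eq_zero.1 h3).resolve_left hd0
  simp only [Finset.mem_insert, Finset.mem_singleton]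
  rcases mul_eq_zero.1 h2 with h3 | h3
  · rcases mul_eq_zero.1 h3 with h4 | h4
    · exact Or.inl h4
    · exact Or.inr (Or.inl (by linarith))
  · exact Or.inr (Or.inr (by linarith))

/-- the coefficients of the three other curves of conductor `17` -/
def k1 (i : Fin 3) : ℚ := match i with | 0 => 30 | 1 => 36 | 2 => -66

/-- see `k1` -/
def k2 (i : Fin 3) : ℚ := match i with | 0 => 289 | 1 => 256 | 2 => 1

theorem tw_pt17 (i : Fin 3) {e d : ℤ} (he : Squarefree e) (hd : Squarefree d)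
    (hf : FinSha (Ef 0 (tw e d))) (hE : ¬ Exc (tw e d)) {x y : ℚ}
    (h : y ^ 2 = d * (x ^ 3 + k1 i * e * x ^ 2 + k2 i * e ^ 2 * x)) : y = 0 ∧ x = 0 := by
  obtain ⟨g, hg, hgm⟩ := tw_spec he hd
  have hm := tw_sqf he hd
  have hd0 : (d : ℚ) ≠ 0 := by exact_mod_cast hd.ne_zero
  have hg0 : (g : ℚ) ≠ 0 := by exact_mod_cast hg
  have hq : (e : ℚ) * d = (g : ℚ) ^ 2 * (tw e d : ℤ) := by
    exact_mod_cast congrArg (fun n : ℤ => (n : ℚ)) hgm
  have hmq : ((tw e d : ℤ) : ℚ) = e * d / g ^ 2 := by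
    rw [hq]
    field_simp
  have h3 : ∀ i : Fin 3, i = 0 ∨ i = 1 ∨ i = 2 := by decide
  have hk : ∀ m : ℤ, -(2 * ((pA i m : ℚ) + pB i m)) = k1 i * m ∧
      ((pA i m : ℚ) - pB i m) ^ 2 = k2 i * m ^ 2 := by
    intro m
    rcases h3 i with rfl | rfl | rfl
    · constructor
      · show -(2 * ((m : ℚ) + ((-16 * m : ℤ) : ℚ))) = 30 * m
        push_cast
        ring
      · show ((m : ℚ) - ((-16 * m : ℤ) : ℚ)) ^ 2 = 289 * m ^ 2
        push_cast
        ring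
    · constructor
      · show -(2 * (((-m : ℤ) : ℚ) + ((-17 * m : ℤ) : ℚ))) = 36 * m
        push_cast
        ring
      · show (((-m : ℤ) : ℚ) - ((-17 * m : ℤ) : ℚ)) ^ 2 = 256 * m ^ 2
        push_cast
        ring
    · constructor
      · show -(2 * (((16 * m : ℤ) : ℚ) + ((17 * m : ℤ) : ℚ))) = -66 * m
        push_cast
        ring
      · show (((16 * m : ℤ) : ℚ) - ((17 * m : ℤ) : ℚ)) ^ 2 = 1 * m ^ 2
        push_cast
        ring
  obtain ⟨a1, a2⟩ := hk (tw e d)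
  have h1 := pts17 hm hE i hf (x := d * x / g ^ 2) (y := d * y / g ^ 3) (by
    rw [a2, sub_eq_add_neg, ← neg_mul, a1, hmq]
    have e1 : (d * y / (g : ℚ) ^ 3) ^ 2 = d ^ 2 * y ^ 2 / g ^ 6 := by ring
    rw [e1, h]
    field_simp)
  constructor
  · have h2 := h1.1
    rw [div_eq_zero_iff] at h2
    rcases h2 with h2 | h2
    · exact (mul_eq_zero.1 h2).resolve_left hd0
    · exact absurd h2 (pow_ne_zero 3 hg0)
  · have h2 := h1.2
    rw [div_eq_zero_iff] at h2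
    rcases h2 with h2 | h2
    · exact (mul_eq_zero.1 h2).resolve_left hd0
    · exact absurd h2 (pow_ne_zero 2 hg0)

/-! ### the special curves -/

/-- `k d` is a square only for `d = k` -/
theorem sqf_sq {k d : ℤ} (hk : Squarefree k) (hd : Squarefree d) (h : IsSquare ((k : ℚ) * d)) : d = k := by
  refine tw_one hk hd ?_
  obtain ⟨g, hg, hgm⟩ := tw_spec hk hd
  have hm := tw_sqf hk hd
  have hg0 : (g : ℚ) ≠ 0 := by exact_mod_cast hg
  have hq : (k : ℚ) * d = (g : ℚ) ^ 2 * (tw k d : ℤ) := by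
    exact_mod_cast congrArg (fun n : ℤ => (n : ℚ)) hgm
  obtain ⟨z, hz⟩ := h
  have h1 : IsSquare (((tw k d : ℤ)) : ℚ) := by
    refine ⟨z / g, ?_⟩
    field_simp
    linear_combination hz - hq
  rw [Rat.isSquare_intCast_iff] at h1
  obtain ⟨w, hw⟩ := h1
  have h2 : IsUnit w := hm w (by rw [hw])
  rcases Int.isUnit_iff.1 h2 with h3 | h3 <;> rw [h3] at hw <;> simpa using hw

/-- the sextics -/
def hs (i : Fin 3) (x : ℚ) : ℚ := match i with
  | 0 => (x ^ 2 - 1) * (x ^ 2 - 16) * (16 * x ^ 2 - 1)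
  | 1 => (1 - x ^ 2) * (x ^ 2 + 17) * (17 * x ^ 2 + 1)
  | 2 => (x ^ 2 - 1) * (16 * x ^ 2 + 17) * (17 * x ^ 2 + 16)

/-- the twists -/
def aa (i : Fin 3) : ℤ := match i with | 0 => 15 | 1 => 2 | 2 => 33

/-- the value at `0` and at infinity, up to squares -/
def vv (i : Fin 3) : ℤ := match i with | 0 => -1 | 1 => 17 | 2 => -17

theorem three (i : Fin 3) : i = 0 ∨ i = 1 ∨ i = 2 := by revert i; decide

theorem map1 (i : Fin 3) {d : ℤ} {x y : ℚ} (h : y ^ 2 = d * hs i x) : ∃ X k : ℚ, k ≠ 0 ∧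
    (k * y) ^ 2 = d * (X * (X + al 0 * aa i) * (X + be 0 * aa i)) := by
  rcases three i with rfl | rfl | rfl
  · refine ⟨16 * (x ^ 2 - 1), 16, by norm_num, ?_⟩
    rw [mul_pow, h]
    show (16 : ℚ) ^ 2 * (d * ((x ^ 2 - 1) * (x ^ 2 - 16) * (16 * x ^ 2 - 1))) =
      d * (16 * (x ^ 2 - 1) * (16 * (x ^ 2 - 1) + 1 * ((15 : ℤ) : ℚ)) *
        (16 * (x ^ 2 - 1) + -16 * ((15 : ℤ) : ℚ)))
    push_cast
    ring
  · refine ⟨-(1 + 17 * x ^ 2) / 9, 17 / 27, by norm_num, ?_⟩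
    rw [mul_pow, h]
    show (17 / 27 : ℚ) ^ 2 * (d * ((1 - x ^ 2) * (x ^ 2 + 17) * (17 * x ^ 2 + 1))) =
      d * (-(1 + 17 * x ^ 2) / 9 * (-(1 + 17 * x ^ 2) / 9 + 1 * ((2 : ℤ) : ℚ)) *
        (-(1 + 17 * x ^ 2) / 9 + -16 * ((2 : ℤ) : ℚ)))
    push_cast
    ring
  · refine ⟨16 * (16 + 17 * x ^ 2), 272, by norm_num, ?_⟩
    rw [mul_pow, h]
    show (272 : ℚ) ^ 2 * (d * ((x ^ 2 - 1) * (16 * x ^ 2 + 17) * (17 * x ^ 2 + 16))) =
      d * (16 * (16 + 17 * x ^ 2) * (16 * (16 + 17 * x ^ 2) + 1 * ((33 : ℤ) : ℚ)) *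
        (16 * (16 + 17 * x ^ 2) + -16 * ((33 : ℤ) : ℚ)))
    push_cast
    ring

theorem recip (i : Fin 3) {x : ℚ} (hx : x ≠ 0) : hs i x / x ^ 6 = -hs i x⁻¹ := by
  rcases three i with rfl | rfl | rfl
  · show (x ^ 2 - 1) * (x ^ 2 - 16) * (16 * x ^ 2 - 1) / x ^ 6 =
      -((x⁻¹ ^ 2 - 1) * (x⁻¹ ^ 2 - 16) * (16 * x⁻¹ ^ 2 - 1))
    field_simp
    ring
  · show (1 - x ^ 2) * (x ^ 2 + 17) * (17 * x ^ 2 + 1) / x ^ 6 =
      -((1 - x⁻¹ ^ 2) * (x⁻¹ ^ 2 + 17) * (17 * x⁻¹ ^ 2 + 1))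
    field_simp
    ring
  · show (x ^ 2 - 1) * (16 * x ^ 2 + 17) * (17 * x ^ 2 + 16) / x ^ 6 =
      -((x⁻¹ ^ 2 - 1) * (16 * x⁻¹ ^ 2 + 17) * (17 * x⁻¹ ^ 2 + 16))
    field_simp
    ring

theorem map2 (i : Fin 3) {d : ℤ} {x y : ℚ} (hx : x ≠ 0) (h : y ^ 2 = d * hs i x) : ∃ X k : ℚ, k ≠ 0 ∧
    (k * y) ^ 2 = d * (X * (X + al 0 * (-aa i : ℤ)) * (X + be 0 * (-aa i : ℤ))) := by
  have h1 : (y / x ^ 3) ^ 2 = (-d : ℤ) * hs i x⁻¹ := by
    have h2 := recip i hx
    rw [div_pow, h]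
    have e : (d : ℚ) * hs i x / (x ^ 3) ^ 2 = d * (hs i x / x ^ 6) := by
      rw [← pow_mul]
      ring
    rw [e, h2]
    push_cast
    ring
  obtain ⟨X, k, hk, h3⟩ := map1 i h1
  refine ⟨-X, k / x ^ 3, div_ne_zero hk (pow_ne_zero 3 hx), ?_⟩
  have e : k / x ^ 3 * y = k * (y / x ^ 3) := by ring
  rw [e, h3]
  push_cast
  ring

theorem at0 (i : Fin 3) {d : ℤ} (hd : Squarefree d) (h : d ∉ ({1, -1, 17, -17} : Finset ℤ)) {y : ℚ}
    (hy : y ^ 2 = d * hs i 0) : False := by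
  simp only [Finset.mem_insert, Finset.mem_singleton, not_or] at h
  have s17 : Squarefree (17 : ℤ) := by
    rw [← Int.squarefree_natAbs]
    exact (by norm_num : Nat.Prime 17).squarefree
  have s17' : Squarefree (-17 : ℤ) := by
    rw [← Int.squarefree_natAbs]
    exact (by norm_num : Nat.Prime 17).squarefree
  have s1' : Squarefree (-1 : ℤ) := by
    rw [← Int.squarefree_natAbs]
    exact squarefree_one
  rcases three i with rfl | rfl | rfl
  · refine h.2.1 (sqf_sq s1' hd ⟨y / 4, ?_⟩)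
    have e : y ^ 2 = d * ((0 ^ 2 - 1) * (0 ^ 2 - 16) * (16 * 0 ^ 2 - 1)) := hy
    push_cast
    linear_combination (-1 / 16 : ℚ) * e
  · refine h.2.2.1 (sqf_sq s17 hd ⟨y, ?_⟩)
    have e : y ^ 2 = d * ((1 - 0 ^ 2) * (0 ^ 2 + 17) * (17 * 0 ^ 2 + 1)) := hy
    push_cast
    linear_combination (-1 : ℚ) * e
  · refine h.2.2.2 (sqf_sq s17' hd ⟨y / 4, ?_⟩)
    have e : y ^ 2 = d * ((0 ^ 2 - 1) * (16 * 0 ^ 2 + 17) * (17 * 0 ^ 2 + 16)) := hy
    push_cast
    linear_combination (-1 / 16 : ℚ) * e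

/-- all the affine points -/
theorem only (i : Fin 3) {d : ℤ} (hd : Squarefree d) (h : d ∉ ({1, -1, 17, -17} : Finset ℤ))
    (ha : Squarefree (aa i)) (hS : Sys (tw (aa i) d) ∨ Sys (tw (-aa i) d)) {x y : ℚ}
    (hy : y ^ 2 = d * hs i x) : y = 0 := by
  have ha' : Squarefree (-aa i) := by
    rw [← Int.squarefree_natAbs, Int.natAbs_neg, Int.squarefree_natAbs]
    exact ha
  rcases hS with hS | hS
  · have h1 := data0 (tw_sqf ha hd)
    obtain ⟨X, k, hk, h2⟩ := map1 i hy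
    have h3 := (tw_pt 0 ha hd (h1.1.2 hS).1 h1.2 h2).1
    exact (mul_eq_zero.1 h3).resolve_left hk
  · have h1 := data0 (tw_sqf ha' hd)
    by_cases hx : x = 0
    · rw [hx] at hy
      exact (at0 i hd h hy).elim
    · obtain ⟨X, k, hk, h2⟩ := map2 i hx hy
      have h3 := (tw_pt 0 ha' hd (h1.1.2 hS).1 h1.2 h2).1
      exact (mul_eq_zero.1 h3).resolve_left hk

/-! ### densities -/

theorem rt_neg {m : ℤ} (hm : m ≠ 0) (h1 : Rt17 m) (h2 : Rt17 (-m)) : False := by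
  have e : jacobiSym (-m) 17 = jacobiSym m 17 := by
    have : (-m) = (-1) * m := by ring
    rw [this, jacobiSym.mul_left]
    have h3 : jacobiSym (-1) 17 = 1 := by norm_num
    rw [h3, one_mul]
  unfold Rt17 at h1 h2
  rw [e] at h2
  rcases h1 with ⟨a, b⟩ | ⟨a, b⟩
  · rcases h2 with ⟨a', b'⟩ | ⟨a', b'⟩
    · omega
    · exact b' b
  · rcases h2 with ⟨a', b'⟩ | ⟨a', b'⟩
    · exact b b'
    · omega

theorem tw_neg {a d : ℤ} (ha : Squarefree a) (hd : Squarefree d) : tw (-a) d = -tw a d := by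
  obtain ⟨g, hg, h1⟩ := tw_spec ha hd
  have ha' : Squarefree (-a) := by
    rw [← Int.squarefree_natAbs, Int.natAbs_neg, Int.squarefree_natAbs]
    exact ha
  obtain ⟨g', hg', h2⟩ := tw_spec ha' hd
  have hm := tw_sqf ha hd
  have hm' := tw_sqf ha' hd
  have hmn : Squarefree (-tw a d) := by
    rw [← Int.squarefree_natAbs, Int.natAbs_neg, Int.squarefree_natAbs]
    exact hm
  have hg0 : (g : ℚ) ≠ 0 := by exact_mod_cast hg
  have hg0' : (g' : ℚ) ≠ 0 := by exact_mod_cast hg'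
  have h3 : (g' : ℤ) ^ 2 * tw (-a) d = -((g : ℤ) ^ 2 * tw a d) := by
    linear_combination -h1 - h2
  have h4 : ((g' : ℚ)) ^ 2 * (tw (-a) d : ℤ) = -((g : ℚ) ^ 2 * (tw a d : ℤ)) := by
    exact_mod_cast congrArg (fun n : ℤ => (n : ℚ)) h3
  refine sqf_sq hmn hm' ⟨(g' : ℚ) * (tw (-a) d : ℤ) / g, ?_⟩
  push_cast
  field_simp
  linear_combination (-((tw (-a) d : ℤ) : ℚ)) * h4

theorem disj {a d : ℤ} (ha : Squarefree a) (hd : Squarefree d) (h1 : Sys (tw a d))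
    (h2 : Sys (tw (-a) d)) : False := by
  have hm := tw_sqf ha hd
  have h3 := ((crit' (P := Sys) parts Iff.rfl hm).1 h1).1
  rw [tw_neg ha hd] at h2
  have hmn : Squarefree (-tw a d) := by
    rw [← Int.squarefree_natAbs, Int.natAbs_neg, Int.squarefree_natAbs]
    exact hm
  exact rt_neg hm.ne_zero h3 ((crit' (P := Sys) parts Iff.rfl hmn).1 h2).1

theorem num_disj {P Q : ℤ → Prop} (h : ∀ d, Squarefree d → P d → Q d → False) (X : ℕ) :
    num (fun d => P d ∨ Q d) X = num P X + num Q X := by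
  unfold num
  rw [← Finset.card_union_of_disjoint]
  · congr 1
    ext d
    simp only [Finset.mem_filter, Finset.mem_union]
    tauto
  · rw [Finset.disjoint_left]
    intro d h1 h2
    obtain ⟨-, a, b⟩ := Finset.mem_filter.1 h1
    obtain ⟨-, -, b'⟩ := Finset.mem_filter.1 h2
    exact h d a b b'

theorem lim5 {a : ℤ} (ha : Squarefree a) (S : Finset ℤ) : Tendsto (fun X : ℕ =>
    (num (fun d => (Sys (tw a d) ∨ Sys (tw (-a) d)) ∧ d ∉ S) X : ℝ) / (num (fun _ => True) X : ℝ))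
    atTop (𝓝 Pool.Agent.Y703.CQ.c2) := by
  have ha' : Squarefree (-a) := by
    rw [← Int.squarefree_natAbs, Int.natAbs_neg, Int.squarefree_natAbs]
    exact ha
  have h1 := dens_tw (P := Sys) parts (fun _ _ _ => Iff.rfl) ha
  have h2 := dens_tw (P := Sys) parts (fun _ _ _ => Iff.rfl) ha'
  have h3 := h1.add h2
  rw [add_halves] at h3
  have h4 : Tendsto (fun X : ℕ => (num (fun d => Sys (tw a d) ∨ Sys (tw (-a) d)) X : ℝ) /
      (num (fun _ => True) X : ℝ)) atTop (𝓝 Pool.Agent.Y703.CQ.c2) := by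
    refine h3.congr fun X => ?_
    rw [num_disj (P := fun d => Sys (tw a d)) (Q := fun d => Sys (tw (-a) d))
      (fun d hd => disj ha hd) X]
    push_cast
    rw [add_div]
  refine lim_closeN S.card h4 (fun X => num_close S (fun d _ hS h => ⟨h, hS⟩) X) (fun X => ?_) top_all
  exact (Pool.Agent.H743.X17.num_mono (fun d _ h => h.1) X).trans (Nat.le_add_right _ _)

theorem lim3 {e : ℤ} (he : Squarefree e) : Tendsto (fun X : ℕ =>
    (num (fun d => Sys (tw e d) ∧ ¬ Exc (tw e d)) X : ℝ) / (num (fun _ => True) X : ℝ))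
    atTop (𝓝 (Pool.Agent.Y703.CQ.c2 / 2)) := by
  have h1 := dens_tw (P := Sys) parts (fun _ _ _ => Iff.rfl) he
  have key : ∀ d, Squarefree d → d ∉ ({tw e 1, tw e (-1), tw e 17, tw e (-17)} : Finset ℤ) →
      ¬ Exc (tw e d) := by
    intro d hd hS hE
    apply hS
    have h2 := tw_tw he hd
    simp only [Finset.mem_insert, Finset.mem_singleton]
    rcases hE with h | h | h | h <;> rw [h] at h2
    · exact Or.inl h2.symm
    · exact Or.inr (Or.inl h2.symm)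
    · exact Or.inr (Or.inr (Or.inl h2.symm))
    · exact Or.inr (Or.inr (Or.inr h2.symm))
  refine lim_closeN _ h1 (fun X => num_close _ (fun d hd hS h => ⟨h, key d hd hS⟩) X)
    (fun X => ?_) top_all
  exact (Pool.Agent.H743.X17.num_mono (fun d _ h => h.1) X).trans (Nat.le_add_right _ _)

end Pool.Agent.H468.G4.Cov
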