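import Pool.Agent.H468.G4.Cov2

/-!
# Hyperelliptic curves with a map to a twist of rank zero
-/

set_option autoImplicit false
set_option linter.all false

open scoped Classical

namespace Pool.Agent.H468.G4.Cov

open Polynomial
open Pool.Agent.N855.GF.Tw (tw tw_sqf)

theorem card_sqrt (a : ℚ) : ((X ^ 2 - C a : ℚ[X]).roots.toFinset).card ≤ 2 := by
  refine (Multiset.toFinset_card_le _).trans ((card_roots' _).trans ?_)
  rw [natDegree_X_pow_sub_C]

theorem card_sqrt0 : ((X ^ 2 - C 0 : ℚ[X]).roots.toFinset).card ≤ 1 := by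
  rw [C_0, sub_zero, roots_X_pow]
  refine (Finset.card_le_card (t := {0}) ?_).trans (Finset.card_singleton _).le
  intro x hx
  rw [Multiset.mem_toFinset] at hx
  have h1 := Multiset.mem_of_mem_nsmul hx
  rw [Finset.mem_singleton]
  exact Multiset.mem_singleton.1 h1

theorem count_le {F G H : ℚ[X]} (hF : F ≠ 0) (hFG : F = G * H ^ 2)
    (hpt : ∀ x y : ℚ, y ^ 2 = G.eval x → y ≠ 0 → H.eval x = 0) :
    (affine G).Finite ∧ (affine G).ncard ≤ F.natDegree := by
  have hsub : affine G ⊆ ((F.roots.toFinset.biUnion fun x =>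
      ({x} : Finset ℚ) ×ˢ (X ^ 2 - C (G.eval x) : ℚ[X]).roots.toFinset : Finset (ℚ × ℚ)) :
        Set (ℚ × ℚ)) := by
    rintro ⟨x, y⟩ hq
    have hq' : y ^ 2 = G.eval x := hq
    simp only [Finset.coe_biUnion, Set.mem_iUnion, Finset.mem_coe, Finset.mem_product,
      Finset.mem_singleton, Multiset.mem_toFinset]
    refine ⟨x, ?_, rfl, ?_⟩
    · rw [mem_roots hF, IsRoot.def, hFG, eval_mul, eval_pow]
      by_cases hy : y = 0
      · rw [hy] at hq'
        rw [← hq']
        ring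
      · rw [hpt x y hq' hy]
        ring
    · rw [mem_roots (X_pow_sub_C_ne_zero (by norm_num) _), IsRoot.def, eval_sub, eval_pow, eval_X,
        eval_C, hq', sub_self]
  refine ⟨(Finset.finite_toSet _).subset hsub, ?_⟩
  refine (Set.ncard_le_ncard hsub (Finset.finite_toSet _)).trans ?_
  rw [Set.ncard_coe_finset]
  refine Finset.card_biUnion_le.trans ?_
  refine le_trans ?_ (card_roots' F)
  rw [← Multiset.toFinset_sum_count_eq]
  refine Finset.sum_le_sum fun x hx => ?_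
  rw [Finset.card_product, Finset.card_singleton, one_mul, count_roots]
  have hx' : F.eval x = 0 := by
    have := (mem_roots hF).1 (Multiset.mem_toFinset.1 hx)
    exact this
  by_cases hG : G.eval x = 0
  · rw [hG]
    refine card_sqrt0.trans ?_
    exact (rootMultiplicity_pos hF).2 hx'
  · refine (card_sqrt _).trans ?_
    rw [le_rootMultiplicity_iff hF, hFG]
    refine Dvd.dvd.mul_left (pow_dvd_pow_of_dvd ?_ 2) _
    rw [dvd_iff_isRoot, IsRoot.def]
    rw [hFG, eval_mul, eval_pow] at hx'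
    exact pow_eq_zero_iff (two_ne_zero) |>.1 ((mul_eq_zero.1 hx').resolve_left hG)

/-- `Q⁴ f(P / Q)` -/
noncomputable def FF (A B : ℚ) (P Q : ℚ[X]) : ℚ[X] := Q * P * (P + C A * Q) * (P + C B * Q)

theorem FF_deg (A B : ℚ) (P Q : ℚ[X]) {n : ℕ} (hP : P.natDegree ≤ n) (hQ : Q.natDegree ≤ n) :
    (FF A B P Q).natDegree ≤ 4 * n ∧ (FF A B P Q).coeff (4 * n) =
      Q.coeff n * P.coeff n * (P.coeff n + A * Q.coeff n) * (P.coeff n + B * Q.coeff n) := by
  have h1 : ∀ D : ℚ, (P + C D * Q).natDegree ≤ n ∧ (P + C D * Q).coeff n = P.coeff n + D * Q.coeff n := by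
    intro D
    refine ⟨?_, by rw [coeff_add, coeff_C_mul]⟩
    refine (natDegree_add_le _ _).trans (max_le hP ?_)
    exact (natDegree_C_mul_le _ _).trans hQ
  obtain ⟨a1, a2⟩ := h1 A
  obtain ⟨b1, b2⟩ := h1 B
  have c1 : (Q * P).natDegree ≤ n + n := natDegree_mul_le.trans (add_le_add hQ hP)
  have c2 : (Q * P).coeff (n + n) = Q.coeff n * P.coeff n := coeff_mul_add_eq_of_natDegree_le hQ hP
  have d1 : (Q * P * (P + C A * Q)).natDegree ≤ n + n + n := natDegree_mul_le.trans (add_le_add c1 a1)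
  have d2 : (Q * P * (P + C A * Q)).coeff (n + n + n) = Q.coeff n * P.coeff n * (P.coeff n + A * Q.coeff n) := by
    rw [coeff_mul_add_eq_of_natDegree_le c1 a1, c2, a2]
  have e : 4 * n = n + n + n + n := by ring
  unfold FF
  rw [e]
  refine ⟨natDegree_mul_le.trans (add_le_add d1 b1), ?_⟩
  rw [coeff_mul_add_eq_of_natDegree_le d1 b1, d2, b2]

/-- the points at infinity -/
noncomputable def inf (G : ℚ[X]) : ℕ := if Odd G.natDegree then 1 else
  if IsSquare G.leadingCoeff then 2 else 0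

/-- the abstract bound -/
theorem absb {F G H : ℚ[X]} {N : ℕ} (hdeg : F.natDegree ≤ 2 * N)
    (hA : ∀ x t : ℚ, t ^ 2 = F.eval x → t = 0) (hB : ∀ t : ℚ, t ^ 2 = F.coeff (2 * N) → t = 0)
    (hH : H ≠ 0) (hG : G ≠ 0) (h : F = G * H ^ 2) :
    (affine G).Finite ∧ (affine G).ncard + inf G ≤ 2 * N := by
  have hF0 : F ≠ 0 := by
    rw [h]
    exact mul_ne_zero hG (pow_ne_zero 2 hH)
  have key : ∀ x y : ℚ, y ^ 2 = G.eval x → y ≠ 0 → H.eval x = 0 := by
    intro x y hy hy0
    have h3 := hA x (y * H.eval x) (by rw [h, eval_mul, eval_pow, ← hy]; ring)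
    exact (mul_eq_zero.1 h3).resolve_left hy0
  obtain ⟨hfin, hc⟩ := count_le hF0 h key
  refine ⟨hfin, ?_⟩
  have hdG : F.natDegree = G.natDegree + 2 * H.natDegree := by
    rw [h, natDegree_mul hG (pow_ne_zero 2 hH), natDegree_pow]
  by_cases hfull : F.natDegree = 2 * N
  · have hev : ¬ Odd G.natDegree := by
      rw [Nat.not_odd_iff_even]
      exact even_iff_two_dvd.2 ⟨N - H.natDegree, by omega⟩
    have hns : ¬ IsSquare G.leadingCoeff := by
      rintro ⟨z, hz⟩
      have h2 := congrArg leadingCoeff h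
      rw [leadingCoeff_mul, leadingCoeff_pow, hz] at h2
      have h3 := hB (z * H.leadingCoeff) (by
        rw [← hfull]
        show _ = F.leadingCoeff
        rw [h2]
        ring)
      rcases mul_eq_zero.1 h3 with h4 | h4
      · rw [h4] at hz
        exact leadingCoeff_ne_zero.2 hG (by rw [hz]; ring)
      · exact leadingCoeff_ne_zero.2 hH h4
    unfold inf
    rw [if_neg hev, if_neg hns, add_zero]
    omega
  · unfold inf
    split_ifs with h1 h2
    · omega
    · rw [Nat.not_odd_iff_even] at h1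
      obtain ⟨r, hr⟩ := h1
      omega
    · omega

theorem bound {A B k : ℚ} (hk : k ≠ 0)
    (hpt : ∀ x y : ℚ, y ^ 2 = k * (x * (x + A) * (x + B)) → y = 0) {P Q G H : ℚ[X]} (hH : H ≠ 0)
    (hG : G ≠ 0) (h : C k * FF A B P Q = G * H ^ 2) :
    (affine G).Finite ∧ (affine G).ncard + inf G ≤ 4 * max P.natDegree Q.natDegree := by
  obtain ⟨n, hn⟩ : ∃ n, n = max P.natDegree Q.natDegree := ⟨_, rfl⟩
  rw [← hn]
  have hP : P.natDegree ≤ n := by rw [hn]; exact le_max_left _ _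
  have hQ : Q.natDegree ≤ n := by rw [hn]; exact le_max_right _ _
  obtain ⟨d1, d2⟩ := FF_deg A B P Q hP hQ
  have hphi : ∀ p q t : ℚ, t ^ 2 = k * (q * p * (p + A * q) * (p + B * q)) → t = 0 := by
    intro p q t ht
    by_cases hq : q = 0
    · rw [hq] at ht
      have : t ^ 2 = 0 := by rw [ht]; ring
      exact pow_eq_zero_iff (two_ne_zero) |>.1 this
    · have h3 := hpt (p / q) (t / q ^ 2) (by
        field_simp
        linear_combination ht)
      rw [div_eq_zero_iff] at h3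
      exact h3.resolve_right (pow_ne_zero 2 hq)
  have e : 4 * n = 2 * (2 * n) := by ring
  rw [e]
  refine absb (F := C k * FF A B P Q) ?_ (fun x t ht => ?_) (fun t ht => ?_) hH hG h
  · rw [natDegree_C_mul hk, ← e]
    exact d1
  · refine hphi (P.eval x) (Q.eval x) t ?_
    rw [ht]
    unfold FF
    simp only [eval_mul, eval_add, eval_C]
  · refine hphi (P.coeff n) (Q.coeff n) t ?_
    rw [ht, coeff_C_mul, ← e, d2]

/-- the homogeneous sextic -/
noncomputable def SS (a b : Fin 3 → ℚ) (P Q : ℚ[X]) : ℚ[X] :=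
  (C (a 0) * P ^ 2 + C (b 0) * Q ^ 2) * (C (a 1) * P ^ 2 + C (b 1) * Q ^ 2) *
    (C (a 2) * P ^ 2 + C (b 2) * Q ^ 2)

theorem SS_deg (a b : Fin 3 → ℚ) (P Q : ℚ[X]) {n : ℕ} (hP : P.natDegree ≤ n) (hQ : Q.natDegree ≤ n) :
    (SS a b P Q).natDegree ≤ 6 * n ∧ (SS a b P Q).coeff (6 * n) =
      (a 0 * P.coeff n ^ 2 + b 0 * Q.coeff n ^ 2) * (a 1 * P.coeff n ^ 2 + b 1 * Q.coeff n ^ 2) *
        (a 2 * P.coeff n ^ 2 + b 2 * Q.coeff n ^ 2) := by
  have hP2 : (P ^ 2).natDegree ≤ n + n ∧ (P ^ 2).coeff (n + n) = P.coeff n ^ 2 := by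
    rw [sq, sq]
    exact ⟨natDegree_mul_le.trans (add_le_add hP hP), coeff_mul_add_eq_of_natDegree_le hP hP⟩
  have hQ2 : (Q ^ 2).natDegree ≤ n + n ∧ (Q ^ 2).coeff (n + n) = Q.coeff n ^ 2 := by
    rw [sq, sq]
    exact ⟨natDegree_mul_le.trans (add_le_add hQ hQ), coeff_mul_add_eq_of_natDegree_le hQ hQ⟩
  have h1 : ∀ D E : ℚ, (C D * P ^ 2 + C E * Q ^ 2).natDegree ≤ n + n ∧
      (C D * P ^ 2 + C E * Q ^ 2).coeff (n + n) = D * P.coeff n ^ 2 + E * Q.coeff n ^ 2 := by
    intro D E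
    refine ⟨?_, by rw [coeff_add, coeff_C_mul, coeff_C_mul, hP2.2, hQ2.2]⟩
    exact (natDegree_add_le _ _).trans (max_le ((natDegree_C_mul_le _ _).trans hP2.1)
      ((natDegree_C_mul_le _ _).trans hQ2.1))
  obtain ⟨a1, a2⟩ := h1 (a 0) (b 0)
  obtain ⟨b1, b2⟩ := h1 (a 1) (b 1)
  obtain ⟨c1, c2⟩ := h1 (a 2) (b 2)
  have e : 6 * n = n + n + (n + n) + (n + n) := by ring
  unfold SS
  rw [e]
  have d1 := natDegree_mul_le.trans (add_le_add a1 b1)
  refine ⟨natDegree_mul_le.trans (add_le_add d1 c1), ?_⟩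
  rw [coeff_mul_add_eq_of_natDegree_le d1 c1, coeff_mul_add_eq_of_natDegree_le a1 b1, a2, b2, c2]

theorem bound6 {a b : Fin 3 → ℚ} {k : ℚ} (hk : k ≠ 0)
    (hpt : ∀ x y : ℚ, y ^ 2 = k * ((a 0 * x ^ 2 + b 0) * (a 1 * x ^ 2 + b 1) * (a 2 * x ^ 2 + b 2)) →
      y = 0)
    (hinf : ¬ IsSquare (k * (a 0 * a 1 * a 2))) {P Q G H : ℚ[X]} (hH : H ≠ 0)
    (hG : G ≠ 0) (h : C k * SS a b P Q = G * H ^ 2) :
    (affine G).Finite ∧ (affine G).ncard + inf G ≤ 6 * max P.natDegree Q.natDegree := by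
  obtain ⟨n, hn⟩ : ∃ n, n = max P.natDegree Q.natDegree := ⟨_, rfl⟩
  rw [← hn]
  have hP : P.natDegree ≤ n := by rw [hn]; exact le_max_left _ _
  have hQ : Q.natDegree ≤ n := by rw [hn]; exact le_max_right _ _
  obtain ⟨d1, d2⟩ := SS_deg a b P Q hP hQ
  have hphi : ∀ p q t : ℚ, t ^ 2 = k * ((a 0 * p ^ 2 + b 0 * q ^ 2) * (a 1 * p ^ 2 + b 1 * q ^ 2) *
      (a 2 * p ^ 2 + b 2 * q ^ 2)) → t = 0 := by
    intro p q t ht
    by_cases hq : q = 0
    · rw [hq] at ht
      by_cases hp : p = 0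
      · rw [hp] at ht
        have : t ^ 2 = 0 := by rw [ht]; ring
        exact pow_eq_zero_iff (two_ne_zero) |>.1 this
      · exfalso
        refine hinf ⟨t / p ^ 3, ?_⟩
        field_simp
        linear_combination -ht
    · have h3 := hpt (p / q) (t / q ^ 3) (by
        field_simp
        linear_combination ht)
      rw [div_eq_zero_iff] at h3
      exact h3.resolve_right (pow_ne_zero 3 hq)
  have e : 6 * n = 2 * (3 * n) := by ring
  rw [e]
  refine absb (F := C k * SS a b P Q) ?_ (fun x t ht => ?_) (fun t ht => ?_) hH hG h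
  · rw [natDegree_C_mul hk, ← e]
    exact d1
  · refine hphi (P.eval x) (Q.eval x) t ?_
    rw [ht]
    unfold SS
    simp only [eval_mul, eval_add, eval_C, eval_pow]
  · refine hphi (P.coeff n) (Q.coeff n) t ?_
    rw [ht, coeff_C_mul, ← e, d2]

/-- the case of a squarefree `k F` -/
theorem bound1 {A B k : ℚ} (hk : k ≠ 0)
    (hpt : ∀ x y : ℚ, y ^ 2 = k * (x * (x + A) * (x + B)) → y = 0) {P Q : ℚ[X]}
    (hG : C k * FF A B P Q ≠ 0) :
    (∀ q ∈ affine (C k * FF A B P Q), q.2 = 0) ∧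
      (affine (C k * FF A B P Q)).ncard ≤ (C k * FF A B P Q).natDegree := by
  have h1 : ∀ q ∈ affine (C k * FF A B P Q), q.2 = 0 := by
    rintro ⟨x, y⟩ hq
    by_contra hy
    have hy0 : y ≠ 0 := hy
    have hy' : y ^ 2 = (C k * FF A B P Q).eval x := hq
    have h1 : k * (Q.eval x * P.eval x * (P.eval x + A * Q.eval x) * (P.eval x + B * Q.eval x)) =
        y ^ 2 := by
      rw [hy']
      unfold FF
      simp only [eval_mul, eval_add, eval_C]
    have hq : Q.eval x ≠ 0 := by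
      intro hq
      rw [hq] at h1
      exact pow_ne_zero 2 hy0 (by rw [← h1]; ring)
    have h3 := hpt (P.eval x / Q.eval x) (y / Q.eval x ^ 2) (by
      field_simp
      linear_combination -h1)
    rw [div_eq_zero_iff] at h3
    rcases h3 with h3 | h3
    · exact hy0 h3
    · exact pow_ne_zero 2 hq h3
  refine ⟨h1, ?_⟩
  refine (count_le (H := 1) hG (by rw [one_pow, mul_one]) fun x y h2 h3 => ?_).2
  exact absurd (h1 (x, y) h2) h3

theorem hpt_of (j : Fin 4) {e d : ℤ} (he : Squarefree e) (hd : Squarefree d)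
    (hf : Finite (Ef j (tw e d)).toAffine.Point)
    (hc : Nat.card (AddCommGroup.torsion (Ef j (tw e d)).toAffine.Point) = 4) (x y : ℚ)
    (h : y ^ 2 = d * (x * (x + al j * e) * (x + be j * e))) : y = 0 :=
  (tw_pt j he hd hf hc h).1

end Pool.Agent.H468.G4.Cov
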