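import Pool.Agent.H468.G4.Cov3

/-!
# Integral points: the height of the integral zeros of a polynomial
-/

set_option autoImplicit false
set_option linter.all false

open scoped Classical

namespace Pool.Agent.H468.G4.Cov

open Polynomial

/-- the height of an integer -/
noncomputable def hz (a : ℤ) : ℝ := Real.log (max |(a : ℝ)| 1)

theorem hz_mono {a b : ℤ} (h : |a| ≤ |b|) : hz a ≤ hz b := by
  unfold hz
  have h' : |(a : ℝ)| ≤ |(b : ℝ)| := by exact_mod_cast h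
  exact Real.log_le_log (lt_of_lt_of_le one_pos (le_max_right _ _)) (max_le_max h' le_rfl)

/-- an integral zero of a polynomial divides one of the coefficients -/
theorem root_coeff {f : ℤ[X]} (hf : f ≠ 0) {x : ℤ} (hx : f.eval x = 0) : ∃ i, hz x ≤ hz (f.coeff i) := by
  by_cases h0 : x = 0
  · refine ⟨0, hz_mono ?_⟩
    rw [h0, abs_zero]
    exact abs_nonneg _
  obtain ⟨q, hq, hnd⟩ := exists_eq_pow_rootMultiplicity_mul_and_not_dvd f hf 0
  rw [C_0, sub_zero] at hq hnd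
  obtain ⟨n, hn⟩ : ∃ n, n = rootMultiplicity 0 f := ⟨_, rfl⟩
  rw [← hn] at hq
  have h1 : q.eval x = 0 := by
    rw [hq, eval_mul, eval_pow, eval_X] at hx
    exact (mul_eq_zero.1 hx).resolve_left (pow_ne_zero _ h0)
  have h2 : q.coeff 0 ≠ 0 := fun h => hnd (X_dvd_iff.2 h)
  have h3 : x ∣ q.coeff 0 := by
    have h4 := congrArg (eval x) (X_mul_divX_add q)
    rw [eval_add, eval_mul, eval_X, eval_C, h1] at h4
    exact ⟨-(q.divX.eval x), by linear_combination h4⟩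
  refine ⟨n, hz_mono ?_⟩
  have h5 : f.coeff n = q.coeff 0 := by
    have := coeff_X_pow_mul q n 0
    rw [zero_add] at this
    rw [hq, this]
  rw [h5]
  exact Int.le_of_dvd (abs_pos.2 h2) ((abs_dvd_abs _ _).2 h3)

/-- the points of `y² = F(x)` -/
theorem zeros {F : ℚ[X]} (hA : ∀ x t : ℚ, t ^ 2 = F.eval x → t = 0) {f : ℤ[X]} (hf : f ≠ 0)
    (h : f.map (Int.castRingHom ℚ) = F) {x y : ℤ} (hxy : y ^ 2 = f.eval x) :
    y = 0 ∧ ∃ i, hz x ≤ hz (f.coeff i) := by
  have h1 : (y : ℚ) = 0 := by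
    refine hA (x : ℚ) y ?_
    rw [← h, eval_intCast_map, Int.cast_id, ← hxy]
    simp
  have h2 : y = 0 := by exact_mod_cast h1
  refine ⟨h2, root_coeff hf ?_⟩
  rw [← hxy, h2]
  ring

theorem hA4 {A B k : ℚ} (hpt : ∀ x y : ℚ, y ^ 2 = k * (x * (x + A) * (x + B)) → y = 0) (P Q : ℚ[X])
    (x t : ℚ) (ht : t ^ 2 = (C k * FF A B P Q).eval x) : t = 0 := by
  have h1 : t ^ 2 = k * (Q.eval x * P.eval x * (P.eval x + A * Q.eval x) *
      (P.eval x + B * Q.eval x)) := by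
    rw [ht]
    unfold FF
    simp only [eval_mul, eval_add, eval_C]
  by_cases hq : Q.eval x = 0
  · rw [hq] at h1
    have : t ^ 2 = 0 := by rw [h1]; ring
    exact pow_eq_zero_iff (two_ne_zero) |>.1 this
  · have h3 := hpt (P.eval x / Q.eval x) (t / Q.eval x ^ 2) (by
      field_simp
      linear_combination h1)
    rw [div_eq_zero_iff] at h3
    exact h3.resolve_right (pow_ne_zero 2 hq)

theorem hA6 {a b : Fin 3 → ℚ} {k : ℚ}
    (hpt : ∀ x y : ℚ, y ^ 2 = k * ((a 0 * x ^ 2 + b 0) * (a 1 * x ^ 2 + b 1) * (a 2 * x ^ 2 + b 2)) →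
      y = 0)
    (hinf : ¬ IsSquare (k * (a 0 * a 1 * a 2))) (P Q : ℚ[X]) (x t : ℚ)
    (ht : t ^ 2 = (C k * SS a b P Q).eval x) : t = 0 := by
  obtain ⟨p, hp⟩ : ∃ p, p = P.eval x := ⟨_, rfl⟩
  obtain ⟨q, hq⟩ : ∃ q, q = Q.eval x := ⟨_, rfl⟩
  have h1 : t ^ 2 = k * ((a 0 * p ^ 2 + b 0 * q ^ 2) * (a 1 * p ^ 2 + b 1 * q ^ 2) *
      (a 2 * p ^ 2 + b 2 * q ^ 2)) := by
    rw [ht, hp, hq]
    unfold SS
    simp only [eval_mul, eval_add, eval_C, eval_pow]
  by_cases hq : q = 0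
  · rw [hq] at h1
    by_cases hp : p = 0
    · rw [hp] at h1
      have : t ^ 2 = 0 := by rw [h1]; ring
      exact pow_eq_zero_iff (two_ne_zero) |>.1 this
    · exfalso
      refine hinf ⟨t / p ^ 3, ?_⟩
      field_simp
      linear_combination -h1
  · have h3 := hpt (p / q) (t / q ^ 3) (by
      field_simp
      linear_combination h1)
    rw [div_eq_zero_iff] at h3
    exact h3.resolve_right (pow_ne_zero 3 hq)

end Pool.Agent.H468.G4.Cov
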