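import Pool.Agent.H743.JL.TP

/-!
# The short equations of the twists of `X_0(15)`, `X_0(21)`, `X_0(24)` and their minimal equations
-/

set_option autoImplicit false
set_option linter.all false

open scoped Classical

namespace Pool.Agent.H468.G4

open Pool.Agent.H743.JL
open Pool.Agent.H743.JL.TP (W3 Dt data)
open Pool.Agent.H743.X17 (FinSha TamProd finSha_iff')
open Pool.Agent.Y700 (IsL Omega VR)
open Pool.Agent.TH841.SH.D (Sha)

/-- a change of the variables -/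
theorem vr_change {W W' : WeierstrassCurve ℚ} {u r s t : ℚ} (v : VR W W' u r s t) :
    ∃ C : WeierstrassCurve.VariableChange ℚ, C • W = W' := by
  refine ⟨⟨Units.mk0 u v.u0, r, s, t⟩, ?_⟩
  have hu : (((Units.mk0 u v.u0)⁻¹ : ℚˣ) : ℚ) = u⁻¹ := by
    rw [Units.val_inv_eq_inv_val, Units.val_mk0]
  have h0 := v.u0
  ext
  · rw [WeierstrassCurve.variableChange_a₁, hu, ← v.e1, inv_mul_cancel_left₀ h0]
  · rw [WeierstrassCurve.variableChange_a₂, hu, inv_pow]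
    show (u ^ 2)⁻¹ * (W.a₂ - s * W.a₁ + 3 * r - s ^ 2) = W'.a₂
    rw [← v.e2, inv_mul_cancel_left₀ (pow_ne_zero 2 h0)]
  · rw [WeierstrassCurve.variableChange_a₃, hu, inv_pow]
    show (u ^ 3)⁻¹ * (W.a₃ + r * W.a₁ + 2 * t) = W'.a₃
    rw [← v.e3, inv_mul_cancel_left₀ (pow_ne_zero 3 h0)]
  · rw [WeierstrassCurve.variableChange_a₄, hu, inv_pow]
    show (u ^ 4)⁻¹ * (W.a₄ - s * W.a₃ + 2 * r * W.a₂ - (t + r * s) * W.a₁ + 3 * r ^ 2 - 2 * s * t) =
      W'.a₄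
    rw [← v.e4, inv_mul_cancel_left₀ (pow_ne_zero 4 h0)]
  · rw [WeierstrassCurve.variableChange_a₆, hu, inv_pow]
    show (u ^ 6)⁻¹ * (W.a₆ + r * W.a₄ + r ^ 2 * W.a₂ + r ^ 3 - t * W.a₃ - t ^ 2 - r * t * W.a₁) =
      W'.a₆
    rw [← v.e6, inv_mul_cancel_left₀ (pow_ne_zero 6 h0)]

/-- `c₄` and `c₆` of the minimal equations -/
theorem c46 (i : Fin 3) {m : ℤ} (hF : Fam i m) : ∃ N : ℤ, (N = m ∨ N = 4 * m) ∧
    (W3 i m).c₄ = al3 i * N ^ 2 ∧ (W3 i m).c₆ = be3 i * N ^ 3 := by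
  have h3 : ∀ i : Fin 3, i = 0 ∨ i = 1 ∨ i = 2 := by decide
  rcases h3 i with rfl | rfl | rfl
  · obtain ⟨h0, h60⟩ : m < 0 ∧ (m % 60 = 13 ∨ m % 60 = 37) := hF
    obtain ⟨k, hk⟩ : ∃ k, m = 4 * k + 1 := ⟨m / 4, by omega⟩
    have e1 : (5 * m - 1) / 4 = 5 * k + 1 := by omega
    have e2 : (19 * m ^ 2 + 1) / 2 = 152 * k ^ 2 + 76 * k + 10 := by
      have : 19 * m ^ 2 + 1 = 2 * (152 * k ^ 2 + 76 * k + 10) := by rw [hk]; ring
      rw [this]
      exact Int.mul_ediv_cancel_left _ (by norm_num)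
    have e3 : (39 * m ^ 3 + 1) / 4 = 624 * k ^ 3 + 468 * k ^ 2 + 117 * k + 10 := by
      have : 39 * m ^ 3 + 1 = 4 * (624 * k ^ 3 + 468 * k ^ 2 + 117 * k + 10) := by rw [hk]; ring
      rw [this]
      exact Int.mul_ediv_cancel_left _ (by norm_num)
    refine ⟨m, Or.inl rfl, ?_, ?_⟩
    · show (⟨1, (5 * m - 1) / 4, 1, -((19 * m ^ 2 + 1) / 2), -((39 * m ^ 3 + 1) / 4)⟩ :
        WeierstrassCurve ℤ).c₄ = 481 * m ^ 2
      rw [e1, e2, e3, hk]
      simp only [WeierstrassCurve.c₄, WeierstrassCurve.b₂, WeierstrassCurve.b₄]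
      ring
    · show (⟨1, (5 * m - 1) / 4, 1, -((19 * m ^ 2 + 1) / 2), -((39 * m ^ 3 + 1) / 4)⟩ :
        WeierstrassCurve ℤ).c₆ = 4879 * m ^ 3
      rw [e1, e2, e3, hk]
      simp only [WeierstrassCurve.c₆, WeierstrassCurve.b₂, WeierstrassCurve.b₄,
        WeierstrassCurve.b₆]
      ring
  · by_cases h4 : m % 4 = 1
    · obtain ⟨k, hk⟩ : ∃ k, m = 4 * k + 1 := ⟨m / 4, by omega⟩
      have e1 : (25 * m - 1) / 4 = 25 * k + 6 := by omega
      have eW : W3 1 m = ⟨1, (25 * m - 1) / 4, 0, 9 * m ^ 2, 0⟩ := if_pos h4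
      refine ⟨m, Or.inl rfl, ?_, ?_⟩
      · rw [eW, e1, hk]
        show _ = 193 * (4 * k + 1) ^ 2
        simp only [WeierstrassCurve.c₄, WeierstrassCurve.b₂, WeierstrassCurve.b₄]
        ring
      · rw [eW, e1, hk]
        show _ = 575 * (4 * k + 1) ^ 3
        simp only [WeierstrassCurve.c₆, WeierstrassCurve.b₂, WeierstrassCurve.b₄,
          WeierstrassCurve.b₆]
        ring
    · have eW : W3 1 m = ⟨0, 25 * m, 0, 144 * m ^ 2, 0⟩ := if_neg h4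
      refine ⟨4 * m, Or.inr rfl, ?_, ?_⟩
      · rw [eW]
        show _ = 193 * (4 * m) ^ 2
        simp only [WeierstrassCurve.c₄, WeierstrassCurve.b₂, WeierstrassCurve.b₄]
        ring
      · rw [eW]
        show _ = 575 * (4 * m) ^ 3
        simp only [WeierstrassCurve.c₆, WeierstrassCurve.b₂, WeierstrassCurve.b₄,
          WeierstrassCurve.b₆]
        ring
  · refine ⟨4 * m, Or.inr rfl, ?_, ?_⟩
    · show (⟨0, 2 * m, 0, -(3 * m ^ 2), 0⟩ : WeierstrassCurve ℤ).c₄ = 13 * (4 * m) ^ 2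
      simp only [WeierstrassCurve.c₄, WeierstrassCurve.b₂, WeierstrassCurve.b₄]
      ring
    · show (⟨0, 2 * m, 0, -(3 * m ^ 2), 0⟩ : WeierstrassCurve ℤ).c₆ = -35 * (4 * m) ^ 3
      simp only [WeierstrassCurve.c₆, WeierstrassCurve.b₂, WeierstrassCurve.b₄,
        WeierstrassCurve.b₆]
      ring

/-- the short equation `y² = x³ - 27 α (g² m)² x - 54 β (g² m)³` -/
theorem short (i : Fin 3) {m : ℤ} (hs : Squarefree m) (hF : Fam i m) {a b : ℤ} {g : ℚ} (hg : g ≠ 0)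
    (ha : (a : ℚ) = -27 * (al3 i : ℚ) * (g ^ 2 * m) ^ 2)
    (hb : (b : ℚ) = -54 * (be3 i : ℚ) * (g ^ 2 * m) ^ 3) :
    (FinSha (Sh a b) ↔ H4 m) ∧ TP.IsMinimal (W3 i m) ∧
      (∃ C : WeierstrassCurve.VariableChange ℚ, C • Sh a b = (W3 i m).map (Int.castRingHom ℚ)) ∧
      ∃ Λ : ℂ → ℂ, IsL (W3 i m) Λ ∧ (H4 m → Λ 1 ≠ 0) := by
  obtain ⟨hmin, -, hT, hO, hfin, Λ, y, hL, hv, hy⟩ := data i hs hF
  obtain ⟨N, hN, hc4, hc6⟩ := c46 i hF
  obtain ⟨u, hu, ha', hb'⟩ : ∃ u : ℚ, u ≠ 0 ∧ (a : ℚ) = -27 * ((W3 i m).c₄ : ℚ) * u ^ 4 ∧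
      (b : ℚ) = -54 * ((W3 i m).c₆ : ℚ) * u ^ 6 := by
    rcases hN with hN | hN
    · refine ⟨g, hg, ?_, ?_⟩
      · rw [ha, hc4, hN]
        push_cast
        ring
      · rw [hb, hc6, hN]
        push_cast
        ring
    · refine ⟨g / 2, div_ne_zero hg (by norm_num), ?_, ?_⟩
      · rw [ha, hc4, hN]
        push_cast
        ring
      · rw [hb, hc6, hN]
        push_cast
        ring
  have v1 := Pool.Agent.H227.JZ.vr1 (W3 i m) a b u hu ha' hb'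
  have hTR := Pool.Agent.H227.JZ.t_SF (W3 i m) a b u hu hmin.1 ha' hb'
  have hTF : TR a b ↔ FinSha (Sh a b) := by
    constructor
    · intro h
      refine ⟨h.1, fun n => ?_⟩
      induction n with
      | zero => intro x hx; simpa using hx
      | succ n ih =>
        intro x hx
        apply h.2
        have h3 : 2 ^ n • (x + x) = 0 := by
          rw [← two_nsmul, smul_smul, ← pow_succ]
          exact hx
        exact ih _ h3
    · rintro ⟨h1, h2⟩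
      exact ⟨h1, fun x hx => h2 1 x (by rw [pow_one, two_nsmul]; exact hx)⟩
  refine ⟨hTF.symm.trans (hTR.trans hfin), hmin, vr_change v1, Λ, hL, fun hH h0 => ?_⟩
  have hyo : Odd y := hy.2 hH
  have hy0 : (y : ℝ) ≠ 0 := by
    have : y ≠ 0 := by
      rintro rfl
      exact absurd hyo (by decide)
    exact_mod_cast this
  have hT0 : (TamProd (W3 i m) : ℝ) ≠ 0 := by
    have h3 : ∀ i : Fin 3, i = 0 ∨ i = 1 ∨ i = 2 := by decide
    rw [hT]
    rcases h3 i with rfl | rfl | rfl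
    · exact_mod_cast (pow_pos (by norm_num : 0 < 4) _).ne'
    · have : 0 < TP.tm 1 m := by
        refine Nat.mul_pos (Nat.mul_pos (by positivity) ?_) ?_ <;> split_ifs <;> norm_num
      exact_mod_cast this.ne'
    · exact_mod_cast (pow_pos (by norm_num : 0 < 4) _).ne'
  have hO' : Omega (W3 i m) ≠ 0 := hO.ne'
  rw [hv, Complex.ofReal_eq_zero] at h0
  have h5 : (y : ℝ) ^ 2 * (TamProd (W3 i m) : ℝ) / 16 * Omega (W3 i m) ≠ 0 := by positivity
  exact h5 h0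

end Pool.Agent.H468.G4
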