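import Pool.Agent.H468.G4.Law
import Pool.Agent.H743.X17.Cond

/-!
# The joint law for the quadratic characters ordered by the conductor
-/

set_option autoImplicit false
set_option linter.all false

open scoped Classical

namespace Pool.Agent.H468.G4

open Finset Filter Topology
open Pool.Agent.H743.JL (Fam tw H4 Qc2)
open Pool.Agent.H743.X17 (Rt Sys NC NG NC_eq NG_core NC_mono core_inj core_spec SL SL_iff)
open Pool.Agent.N855.GF.Lc17 (Loc lc_Loc low_P)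
open Pool.Agent.N919.BS (NS NF Fund core)
open Pool.Agent.H468.WM (opf Wt cnt HGW close_NFW)
open Pool.Agent.H468.WN (wt_dvd)
open Pool.Agent.H468.WJ (Pat kp mod2)

theorem tw1 (d : ℤ) : tw 1 d = d := by
  unfold Pool.Agent.H743.JL.tw
  rw [Int.one_gcd, one_mul]
  norm_num

/-- the local components of the character and the class of the squarefree integer -/
theorem sl_loc {S : Finset ℕ} {D₀ D : ℤ} (h0 : Fund D₀) (hD : Fund D) :
    SL True S D₀ D ↔ Loc True S (core D₀) (core D) := by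
  have h := SL_iff (e := 1) True S squarefree_one h0 hD
  have e1 : Pool.Agent.N855.GF.Tw.tw 1 (core D₀) = core D₀ := tw1 _
  have e2 : Pool.Agent.N855.GF.Tw.tw 1 (core D) = core D := tw1 _
  rwa [e1, e2] at h

/-- the odd prime factors of a fundamental discriminant -/
theorem opf_core {D : ℤ} (hD : Fund D) : opf (core D) = opf D := by
  unfold core
  rcases hD with ⟨h5, h6⟩ | ⟨m, h5, h6, h7⟩
  · rw [if_pos (by omega)]
  · rw [if_neg (by omega)]
    have e : D / 4 = m := by omega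
    rw [e, h5]
    have hm0 : m ≠ 0 := h6.ne_zero
    unfold Pool.Agent.H468.WM.opf
    rw [Int.natAbs_mul, Nat.primeFactors_mul (by norm_num) (Int.natAbs_ne_zero.2 hm0)]
    have h4 : (4 : ℤ).natAbs.primeFactors = {2} := by
      show Nat.primeFactors 4 = {2}
      rw [show (4 : ℕ) = 2 ^ 2 by norm_num, Nat.primeFactors_prime_pow two_ne_zero Nat.prime_two]
    rw [h4]
    ext p
    simp only [mem_erase, mem_union, mem_singleton]
    tauto

theorem NG_closeZ {P Q : ℤ → Prop} (Z : Finset ℤ) (h : ∀ D, Fund D → core D ∉ Z → P D → Q D)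
    (X : ℕ) : NG P X ≤ NG Q X + Z.card := by
  unfold NG
  have h1 : ((Icc (-(X : ℤ)) X).filter fun D => Fund D ∧ P D) ⊆
      ((Icc (-(X : ℤ)) X).filter fun D => Fund D ∧ Q D) ∪
        ((Icc (-(X : ℤ)) X).filter fun D => Fund D ∧ core D ∈ Z) := by
    intro D hD
    obtain ⟨a, b, d⟩ := mem_filter.1 hD
    by_cases hZ : core D ∈ Z
    · exact mem_union_right _ (mem_filter.2 ⟨a, b, hZ⟩)
    · exact mem_union_left _ (mem_filter.2 ⟨a, b, h D b hZ d⟩)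
  refine (card_le_card h1).trans ((card_union_le _ _).trans (Nat.add_le_add_left ?_ _))
  exact card_le_card_of_injOn core (fun D hD => (mem_filter.1 hD).2.2)
    (fun D hD D' hD' he => core_inj (mem_filter.1 hD).2.1 (mem_filter.1 hD').2.1 he)

/-- **the joint law**, conductor ordering, uniformly in the conditions on the prime factors -/
theorem lawF (T T' : Finset ℤ) (S : Finset ℕ) {D₀ : ℤ} (h0 : Fund D₀)
    (hT : ∀ t ∈ T, Squarefree t ∧ Rt (tw t (core D₀)))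
    (hT' : ∀ t ∈ T', Squarefree t ∧ tw t (core D₀) < 0) (hS : ∀ p ∈ S, p.Prime) (h17 : 17 ∈ S)
    {q : ℕ} (hq : 0 < q) {A A' : Finset ℤ} (hA : A ⊆ T) (hA' : A' ⊆ T')
    {F : ℤ → Prop} (Z : Finset ℤ)
    (hF : ∀ D, Fund D → core D ∉ Z → SL True S D₀ D → (F D ↔ Pat T A T' A' (core D)))
    (ε : ℝ) (hε : 0 < ε) : ∃ X₀ : ℝ, ∀ X : ℝ, X₀ ≤ X → ∀ V : Set (ℕ → ℕ),
      |(NC (fun D => SL True S D₀ D ∧ F D ∧ cnt q (opf D) ∈ V) X : ℝ) -
        kp T A T' A' * NC (fun D => SL True S D₀ D ∧ cnt q (opf D) ∈ V) X| ≤ ε * X := by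
  have hd : Squarefree (core D₀) := (core_spec h0).1
  have hq1 : ∀ d, Squarefree d → (Qc2 T T' True S (core D₀) d ↔ Loc True S (core D₀) d) :=
    fun d hd' => qc_of (fun t ht => (hT t ht).1) (fun t ht => (hT' t ht).1) h17 hd hd'
  have hfil : T.filter (fun t => Rt (tw t (core D₀))) = T := by
    rw [Finset.filter_eq_self]
    exact fun t ht => (hT t ht).2
  obtain ⟨m, h136, hm, hQ, -, hM⟩ := mod2 T T' True S (core D₀) (fun t ht => (hT t ht).1) hT' hS hd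
  obtain ⟨G, hG, hGP⟩ := hM (m * q) (Nat.mul_pos hm hq) (Dvd.intro _ rfl) A
    (by rw [hfil]; exact hA) A' hA'
  rw [hfil] at hG
  obtain ⟨X₁, h5⟩ := close_NFW hG (ε / 2) (by positivity)
  obtain ⟨X₂, hX₂⟩ := exists_nat_gt (4 * Z.card / ε)
  refine ⟨(X₁ + X₂ : ℕ) + 1, fun X hX V => ?_⟩
  have hX0 : (0 : ℝ) ≤ X := by
    have : (0 : ℝ) ≤ ((X₁ + X₂ : ℕ) : ℝ) := Nat.cast_nonneg _
    linarith
  rw [NC_eq _ hX0, NC_eq _ hX0]
  obtain ⟨n, hn⟩ : ∃ n : ℕ, n = ⌊X⌋₊ := ⟨_, rfl⟩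
  have hn1 : (n : ℝ) ≤ X := by rw [hn]; exact Nat.floor_le hX0
  have hn2 : X₁ + X₂ ≤ n := by
    rw [hn]
    exact Nat.le_floor (by linarith)
  rw [← hn]
  obtain ⟨W, hWd⟩ : ∃ W : Finset ℕ → Prop, W = fun S => cnt q S ∈ V := ⟨_, rfl⟩
  have hW : Wt q W := by
    rw [hWd]
    exact wt_mem V
  have h6 := h5 n (by omega) W (wt_dvd (Nat.mul_pos hm hq) (Dvd.intro_left _ rfl) hW)
  have c1 : NG (fun D => SL True S D₀ D ∧ cnt q (opf D) ∈ V) n =
      NF (fun d => Qc2 T T' True S (core D₀) d ∧ W (opf d)) n := by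
    refine NG_core (fun D hD => ?_) n
    rw [hWd, sl_loc h0 hD, hq1 _ (core_spec hD).1, opf_core hD]
  have c2 : NG (fun D => SL True S D₀ D ∧ (G (core D) ∧ cnt q (opf D) ∈ V)) n =
      NF (fun d => Qc2 T T' True S (core D₀) d ∧ (G d ∧ W (opf d))) n := by
    refine NG_core (fun D hD => ?_) n
    rw [hWd, sl_loc h0 hD, hq1 _ (core_spec hD).1, opf_core hD]
  rw [← c1, ← c2] at h6
  have k1 : NG (fun D => SL True S D₀ D ∧ F D ∧ cnt q (opf D) ∈ V) n ≤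
      NG (fun D => SL True S D₀ D ∧ (G (core D) ∧ cnt q (opf D) ∈ V)) n + Z.card := by
    refine NG_closeZ Z (fun D hD h => ?_) n
    rintro ⟨a1, a2, a3⟩
    have a4 := (hq1 _ (core_spec hD).1).2 ((sl_loc h0 hD).1 a1)
    exact ⟨a1, (hGP _ (core_spec hD).1 a4).2 ((hF D hD h a1).1 a2), a3⟩
  have k2 : NG (fun D => SL True S D₀ D ∧ (G (core D) ∧ cnt q (opf D) ∈ V)) n ≤
      NG (fun D => SL True S D₀ D ∧ F D ∧ cnt q (opf D) ∈ V) n + Z.card := by
    refine NG_closeZ Z (fun D hD h => ?_) n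
    rintro ⟨a1, a2, a3⟩
    have a4 := (hq1 _ (core_spec hD).1).2 ((sl_loc h0 hD).1 a1)
    exact ⟨a1, (hF D hD h a1).2 ((hGP _ (core_spec hD).1 a4).1 a2), a3⟩
  have k1' : (NG (fun D => SL True S D₀ D ∧ F D ∧ cnt q (opf D) ∈ V) n : ℝ) ≤
      NG (fun D => SL True S D₀ D ∧ (G (core D) ∧ cnt q (opf D) ∈ V)) n + Z.card := by
    exact_mod_cast k1
  have k2' : (NG (fun D => SL True S D₀ D ∧ (G (core D) ∧ cnt q (opf D) ∈ V)) n : ℝ) ≤
      NG (fun D => SL True S D₀ D ∧ F D ∧ cnt q (opf D) ∈ V) n + Z.card := by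
    exact_mod_cast k2
  have hX2 : (X₂ : ℝ) ≤ X := by
    have : (X₂ : ℝ) ≤ n := by exact_mod_cast (by omega : X₂ ≤ n)
    linarith
  have hX3 : 4 * Z.card / ε < X := by linarith
  rw [div_lt_iff₀ hε] at hX3
  have hn3 : ε / 2 * (n : ℝ) ≤ ε / 2 * X := mul_le_mul_of_nonneg_left hn1 (by positivity)
  have hZ0 : (0 : ℝ) ≤ Z.card := Nat.cast_nonneg _
  rw [abs_le] at h6 ⊢
  constructor <;> linarith [h6.1, h6.2]

/-- the class has positive lower density -/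
theorem lowF' (S : Finset ℕ) {D₀ : ℤ} (h0 : Fund D₀) (hS : ∀ p ∈ S, p.Prime) :
    ∃ δ X₀ : ℝ, 0 < δ ∧ ∀ X : ℝ, X₀ ≤ X → δ * X ≤ (NC (SL True S D₀) X : ℝ) := by
  have hd : Squarefree (core D₀) := (core_spec h0).1
  obtain ⟨m, h136, hm, hL⟩ := lc_Loc True S hS (core D₀)
  obtain ⟨c, X₁, hc, h1⟩ := low_P (Dvd.dvd.trans (by norm_num) h136) hm hL hd
    (Pool.Agent.H181.JL.Loc_self True S hd)
  refine ⟨c / 2, X₁ + 1, by positivity, fun X hX => ?_⟩
  have hX1 : (0 : ℝ) ≤ X₁ := Nat.cast_nonneg _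
  have hX0 : (0 : ℝ) ≤ X := by linarith
  rw [NC_eq _ hX0]
  have hn2 : X₁ ≤ ⌊X⌋₊ := Nat.le_floor (by linarith)
  have h2 := (h1 _ hn2).1
  have c1 : NG (SL True S D₀) ⌊X⌋₊ = NF (Loc True S (core D₀)) ⌊X⌋₊ :=
    NG_core (fun D hD => sl_loc h0 hD) _
  rw [c1]
  refine le_trans ?_ h2
  have h3 : X < ⌊X⌋₊ + 1 := Nat.lt_floor_add_one X
  have h4 : X / 2 ≤ (⌊X⌋₊ : ℝ) := by
    have h5 : (1 : ℝ) ≤ X := by linarith
    have h6 : 1 ≤ ⌊X⌋₊ := Nat.le_floor (by exact_mod_cast h5)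
    have h7 : (1 : ℝ) ≤ (⌊X⌋₊ : ℝ) := by exact_mod_cast h6
    linarith
  calc c / 2 * X = c * (X / 2) := by ring
    _ ≤ c * (⌊X⌋₊ : ℝ) := mul_le_mul_of_nonneg_left h4 hc.le

/-- the proportion -/
theorem limF (P G : ℤ → Prop) (κ : ℝ) {δ X₁ : ℝ} (hδ : 0 < δ)
    (h1 : ∀ X : ℝ, X₁ ≤ X → δ * X ≤ (NC P X : ℝ))
    (h2 : ∀ ε : ℝ, 0 < ε → ∃ X₀ : ℝ, ∀ X : ℝ, X₀ ≤ X →
      |(NC (fun d => P d ∧ G d) X : ℝ) - κ * NC P X| ≤ ε * X) :
    Tendsto (fun X : ℝ => (NC (fun d => P d ∧ G d) X : ℝ) / (NC P X : ℝ)) atTop (𝓝 κ) := by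
  rw [Metric.tendsto_atTop]
  intro ε hε
  obtain ⟨X₀, h3⟩ := h2 (ε * δ / 2) (by positivity)
  refine ⟨max (max X₀ X₁) 1, fun X hX => ?_⟩
  have a1 : X₀ ≤ X := (le_max_left _ _).trans ((le_max_left _ _).trans hX)
  have a2 : X₁ ≤ X := (le_max_right _ _).trans ((le_max_left _ _).trans hX)
  have a3 : 1 ≤ X := (le_max_right _ _).trans hX
  have b1 := h1 X a2
  have b2 := h3 X a1
  have hN : 0 < (NC P X : ℝ) := lt_of_lt_of_le (by positivity) b1
  rw [Real.dist_eq, div_sub' hN.ne', abs_div, abs_of_pos hN, div_lt_iff₀ hN, mul_comm (NC P X : ℝ) κ]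
  refine lt_of_le_of_lt b2 ?_
  have h5 : ε * (δ * X) ≤ ε * (NC P X : ℝ) := mul_le_mul_of_nonneg_left b1 hε.le
  have h6 : 0 < ε * δ * X := by positivity
  linarith

/-- positive lower density -/
theorem pos_liminfF (P : ℤ → Prop) {δ X₁ : ℝ} (hδ : 0 < δ)
    (h1 : ∀ X : ℝ, X₁ ≤ X → δ * X ≤ (NC P X : ℝ)) :
    0 < liminf (fun X : ℝ => (NC P X : ℝ) / (NC (fun _ => True) X : ℝ)) atTop := by
  refine lt_of_lt_of_le (by positivity : 0 < δ / 3) (le_liminf_of_le ?_ ?_)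
  · refine IsBoundedUnder.isCoboundedUnder_ge ⟨1, ?_⟩
    rw [eventually_map]
    refine Eventually.of_forall fun X => ?_
    apply div_le_one_of_le₀
    · exact_mod_cast NC_mono (fun _ _ _ => trivial) X
    · positivity
  · filter_upwards [eventually_ge_atTop (max X₁ 1)] with X hX
    have a1 : X₁ ≤ X := (le_max_left _ _).trans hX
    have a2 : 1 ≤ X := (le_max_right _ _).trans hX
    have hX0 : 0 < X := by linarith
    have b1 := h1 X a1
    have b2 : (NC P X : ℝ) ≤ NC (fun _ => True) X := by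
      exact_mod_cast NC_mono (fun _ _ _ => trivial) X
    have hN : 0 < (NC (fun _ => True) X : ℝ) := lt_of_lt_of_le (by positivity) (b1.trans b2)
    have b3 : (NC (fun _ => True) X : ℝ) ≤ 3 * X := by
      rw [NC_eq _ hX0.le]
      have c0 : ∀ P : ℤ → Prop, NG P ⌊X⌋₊ ≤ 2 * ⌊X⌋₊ + 1 := by
        intro P
        unfold NG
        refine (card_filter_le _ _).trans ?_
        rw [Int.card_Icc]
        omega
      have c2 : (⌊X⌋₊ : ℝ) ≤ X := Nat.floor_le hX0.le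
      have c4 : (NG (fun _ => True) ⌊X⌋₊ : ℝ) ≤ 2 * (⌊X⌋₊ : ℝ) + 1 := by exact_mod_cast c0 _
      linarith
    rw [le_div_iff₀ hN]
    calc δ / 3 * (NC (fun _ => True) X : ℝ) ≤ δ / 3 * (3 * X) :=
          mul_le_mul_of_nonneg_left b3 (by positivity)
      _ = δ * X := by ring
      _ ≤ NC P X := b1

end Pool.Agent.H468.G4
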