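import Pool.Agent.H743.JL.AllZ
import Pool.Agent.H743.X17.NFtw
import Pool.Agent.H743.X17.Gold

/-!
# The families are unions of classes given by local conditions
-/

set_option autoImplicit false
set_option linter.all false

open scoped Classical

namespace Pool.Agent.H468.G4

open Pool.Agent.H743.JL (Fam tw)
open Pool.Agent.H743.X17 (Rt)
open Pool.Agent.N855.GF.Lc17 (Loc)

/-- an integer which is a square in `ℚ_p` is a square modulo every power of `p` -/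
theorem sq_mod {p : ℕ} [Fact p.Prime] {a : ℤ} (h : IsSquare ((a : ℤ) : ℚ_[p])) (k : ℕ) :
    ∃ x : ZMod (p ^ k), ((a : ℤ) : ZMod (p ^ k)) = x ^ 2 := by
  obtain ⟨z, hz⟩ := h
  have hz' : ‖z‖ ≤ 1 := by
    have h1 : ‖z‖ * ‖z‖ ≤ 1 := by
      rw [← norm_mul, ← hz]
      exact Padic.norm_int_le_one a
    by_contra hlt
    push Not at hlt
    nlinarith
  obtain ⟨w, hw⟩ : ∃ w : ℤ_[p], (w : ℚ_[p]) = z := ⟨⟨z, hz'⟩, rfl⟩
  have h2 : ((a : ℤ) : ℤ_[p]) = w * w := by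
    apply Subtype.ext
    push_cast
    rw [hw]
    exact hz
  refine ⟨PadicInt.toZModPow k w, ?_⟩
  have h3 := congrArg (PadicInt.toZModPow k) h2
  rw [map_intCast, map_mul, ← sq] at h3
  exact h3

theorem sq_int {p : ℕ} [Fact p.Prime] {a : ℤ} (h : IsSquare ((a : ℤ) : ℚ_[p])) (k : ℕ) :
    ∃ n : ℤ, ((p ^ k : ℕ) : ℤ) ∣ a - n ^ 2 := by
  obtain ⟨x, hx⟩ := sq_mod h k
  refine ⟨(x.val : ℤ), ?_⟩
  haveI : NeZero (p ^ k) := ⟨pow_ne_zero k (Fact.out : p.Prime).ne_zero⟩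
  rw [← ZMod.intCast_zmod_eq_zero_iff_dvd]
  push_cast
  rw [hx, ZMod.natCast_zmod_val, sub_self]

theorem dvd_of {p : ℕ} [hp : Fact p.Prime] {m m' : ℤ} (hm : Squarefree m)
    (h : IsSquare ((m * m' : ℤ) : ℚ_[p])) (hd : (p : ℤ) ∣ m) : (p : ℤ) ∣ m' := by
  have hpp : Prime (p : ℤ) := Nat.prime_iff_prime_int.1 hp.out
  obtain ⟨n, hn⟩ := sq_int h 2
  have hn' : (p : ℤ) ^ 2 ∣ m * m' - n ^ 2 := by exact_mod_cast hn
  have h1 : (p : ℤ) ∣ n := by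
    have h2 : (p : ℤ) ∣ m * m' - n ^ 2 := (dvd_pow_self _ two_ne_zero).trans hn'
    have h3 : (p : ℤ) ∣ n ^ 2 := by
      have h4 : (p : ℤ) ∣ m * m' := Dvd.dvd.mul_right hd m'
      have := dvd_sub h4 h2
      rwa [sub_sub_cancel] at this
    exact hpp.dvd_of_dvd_pow h3
  have h2 : (p : ℤ) ^ 2 ∣ m * m' := by
    have h3 : (p : ℤ) ^ 2 ∣ n ^ 2 := pow_dvd_pow_of_dvd h1 2
    have := dvd_add hn' h3
    rwa [sub_add_cancel] at this
  obtain ⟨c, rfl⟩ := hd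
  have h3 : ¬ (p : ℤ) ∣ c := by
    rintro ⟨e, rfl⟩
    have h4 := hm (p : ℤ) ⟨e, by ring⟩
    exact hpp.not_unit h4
  have h4 : (p : ℤ) ∣ c * m' := by
    rw [sq, mul_assoc] at h2
    exact (mul_dvd_mul_iff_left hpp.ne_zero).1 h2
  exact (hpp.dvd_or_dvd h4).resolve_left h3

theorem comm_sq {p : ℕ} [Fact p.Prime] {m m' : ℤ} (h : IsSquare ((m * m' : ℤ) : ℚ_[p])) :
    IsSquare ((m' * m : ℤ) : ℚ_[p]) := by
  rwa [mul_comm]

theorem two8 : ∀ x a b : ZMod 8, a * b = x ^ 2 → b ≠ 0 → b ≠ 4 → (a = 1 → b = 1) ∧ (a = 5 → b = 5) := by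
  decide

theorem three9 : ∀ x a b : ZMod 3, a * b = x ^ 2 → b ≠ 0 → (a = 1 → b = 1) := by decide

theorem five5 : ∀ x a b : ZMod 5, a * b = x ^ 2 → b ≠ 0 → (a = 2 ∨ a = 3) → (b = 2 ∨ b = 3) := by
  decide

theorem seven7 : ∀ x a b : ZMod 7, a * b = x ^ 2 → b ≠ 0 → (a = 1 ∨ a = 2 ∨ a = 4) →
    (b = 1 ∨ b = 2 ∨ b = 4) := by
  decide

theorem not4 {m : ℤ} (hm : Squarefree m) : ¬ (4 : ℤ) ∣ m := by
  rintro ⟨c, rfl⟩
  have h := hm 2 ⟨c, by ring⟩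
  exact absurd (Int.isUnit_iff.1 h) (by norm_num)

/-- modulo `8` -/
theorem mod8 {m m' : ℤ} (hm' : Squarefree m')
    (h : ∀ [Fact (Nat.Prime 2)], IsSquare ((m * m' : ℤ) : ℚ_[2])) :
    (m % 8 = 1 → m' % 8 = 1) ∧ (m % 8 = 5 → m' % 8 = 5) := by
  haveI : Fact (Nat.Prime 2) := ⟨Nat.prime_two⟩
  obtain ⟨x, hx⟩ := sq_mod h 3
  have h4 := not4 hm'
  have key := two8 (show ZMod 8 from x) ((m : ℤ) : ZMod 8) ((m' : ℤ) : ZMod 8) (by
    have hx' : ((m * m' : ℤ) : ZMod 8) = (show ZMod 8 from x) ^ 2 := hx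
    rw [← hx']
    push_cast
    rfl) (by
    intro h0
    have : (8 : ℤ) ∣ m' := (ZMod.intCast_zmod_eq_zero_iff_dvd m' 8).1 h0
    exact h4 (Dvd.dvd.trans (by norm_num) this)) (by
    intro h0
    have h1 : ((m' - 4 : ℤ) : ZMod 8) = 0 := by
      push_cast
      rw [h0]
      decide
    have : (8 : ℤ) ∣ m' - 4 := (ZMod.intCast_zmod_eq_zero_iff_dvd (m' - 4) 8).1 h1
    apply h4
    omega)
  have conv1 : ∀ (n r : ℤ), 0 ≤ r → r < 8 → (n % 8 = r ↔ ((n : ℤ) : ZMod 8) = ((r : ℤ) : ZMod 8)) := by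
    intro n r h0 h1
    rw [ZMod.intCast_eq_intCast_iff, Int.ModEq]
    push_cast
    omega
  constructor
  · intro h1
    rw [conv1 _ 1 (by norm_num) (by norm_num)] at h1 ⊢
    push_cast at h1 ⊢
    exact key.1 h1
  · intro h1
    rw [conv1 _ 5 (by norm_num) (by norm_num)] at h1 ⊢
    push_cast at h1 ⊢
    exact key.2 h1

theorem mod_p {p : ℕ} [hp : Fact p.Prime] {m m' : ℤ} (h : IsSquare ((m * m' : ℤ) : ℚ_[p])) :
    ∃ x : ZMod p, ((m : ℤ) : ZMod p) * ((m' : ℤ) : ZMod p) = x ^ 2 := by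
  obtain ⟨n, hn⟩ := sq_int h 1
  refine ⟨((n : ℤ) : ZMod p), ?_⟩
  rw [pow_one] at hn
  have h1 := (ZMod.intCast_zmod_eq_zero_iff_dvd _ p).2 hn
  push_cast at h1
  exact sub_eq_zero.1 h1

theorem ne_of {p : ℕ} [hp : Fact p.Prime] {m m' : ℤ} (hm' : Squarefree m')
    (h : IsSquare ((m * m' : ℤ) : ℚ_[p])) (hd : ¬ (p : ℤ) ∣ m) : ((m' : ℤ) : ZMod p) ≠ 0 := by
  intro h0
  exact hd (dvd_of hm' (comm_sq h) ((ZMod.intCast_zmod_eq_zero_iff_dvd _ p).1 h0))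

/-- modulo `3` -/
theorem mod3 {m m' : ℤ} (hm' : Squarefree m')
    (h : ∀ [Fact (Nat.Prime 3)], IsSquare ((m * m' : ℤ) : ℚ_[3])) (h1 : m % 3 = 1) : m' % 3 = 1 := by
  haveI : Fact (Nat.Prime 3) := ⟨Nat.prime_three⟩
  obtain ⟨x, hx⟩ := mod_p h
  have hd : ¬ ((3 : ℕ) : ℤ) ∣ m := by push_cast; omega
  have e1 : ((m : ℤ) : ZMod 3) = 1 := by
    have : ((m : ℤ) : ZMod 3) = ((1 : ℤ) : ZMod 3) := by
      rw [ZMod.intCast_eq_intCast_iff, Int.ModEq]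
      push_cast
      omega
    rw [this]
    rfl
  have e2 := three9 x _ _ hx (ne_of hm' h hd) e1
  have e3 : ((m' : ℤ) : ZMod 3) = ((1 : ℤ) : ZMod 3) := by
    rw [e2]
    rfl
  rw [ZMod.intCast_eq_intCast_iff, Int.ModEq] at e3
  push_cast at e3
  omega

/-- modulo `5` -/
theorem mod5 {m m' : ℤ} (hm' : Squarefree m')
    (h : ∀ [Fact (Nat.Prime 5)], IsSquare ((m * m' : ℤ) : ℚ_[5])) (h1 : m % 5 = 2 ∨ m % 5 = 3) :
    m' % 5 = 2 ∨ m' % 5 = 3 := by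
  haveI : Fact (Nat.Prime 5) := ⟨Nat.prime_five⟩
  obtain ⟨x, hx⟩ := mod_p h
  have hd : ¬ ((5 : ℕ) : ℤ) ∣ m := by push_cast; omega
  have cv : ∀ (n r : ℤ), n % 5 = r % 5 ↔ ((n : ℤ) : ZMod 5) = ((r : ℤ) : ZMod 5) := by
    intro n r
    rw [ZMod.intCast_eq_intCast_iff, Int.ModEq]
    push_cast
    exact Iff.rfl
  have e1 : ((m : ℤ) : ZMod 5) = 2 ∨ ((m : ℤ) : ZMod 5) = 3 := by
    rcases h1 with h1 | h1
    · left
      have := (cv m 2).1 (by omega)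
      rw [this]
      rfl
    · right
      have := (cv m 3).1 (by omega)
      rw [this]
      rfl
  have e2 := five5 x _ _ hx (ne_of hm' h hd) e1
  rcases e2 with e2 | e2
  · left
    have := (cv m' 2).2 (by rw [e2]; rfl)
    omega
  · right
    have := (cv m' 3).2 (by rw [e2]; rfl)
    omega

/-- modulo `7` -/
theorem mod7 {m m' : ℤ} (hm : Squarefree m) (hm' : Squarefree m')
    (h : ∀ [Fact (Nat.Prime 7)], IsSquare ((m * m' : ℤ) : ℚ_[7]))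
    (h1 : m % 7 = 0 ∨ m % 7 = 1 ∨ m % 7 = 2 ∨ m % 7 = 4) :
    m' % 7 = 0 ∨ m' % 7 = 1 ∨ m' % 7 = 2 ∨ m' % 7 = 4 := by
  haveI : Fact (Nat.Prime 7) := ⟨by norm_num⟩
  by_cases hd : ((7 : ℕ) : ℤ) ∣ m
  · have := dvd_of hm h hd
    push_cast at this
    omega
  obtain ⟨x, hx⟩ := mod_p h
  have cv : ∀ (n r : ℤ), n % 7 = r % 7 ↔ ((n : ℤ) : ZMod 7) = ((r : ℤ) : ZMod 7) := by
    intro n r
    rw [ZMod.intCast_eq_intCast_iff, Int.ModEq]
    push_cast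
    exact Iff.rfl
  have hd' : ¬ m % 7 = 0 := by
    intro h0
    apply hd
    push_cast
    omega
  have e1 : ((m : ℤ) : ZMod 7) = 1 ∨ ((m : ℤ) : ZMod 7) = 2 ∨ ((m : ℤ) : ZMod 7) = 4 := by
    rcases h1 with h1 | h1 | h1 | h1
    · exact absurd h1 hd'
    · left
      have := (cv m 1).1 (by omega)
      rw [this]
      rfl
    · right; left
      have := (cv m 2).1 (by omega)
      rw [this]
      rfl
    · right; right
      have := (cv m 4).1 (by omega)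
      rw [this]
      rfl
  have e2 := seven7 x _ _ hx (ne_of hm' h hd) e1
  rcases e2 with e2 | e2 | e2
  · have := (cv m' 1).2 (by rw [e2]; rfl)
    omega
  · have := (cv m' 2).2 (by rw [e2]; rfl)
    omega
  · have := (cv m' 4).2 (by rw [e2]; rfl)
    omega

/-- the symbol at `17` -/
theorem mod17 {m m' : ℤ} (hm : Squarefree m) (hm' : Squarefree m')
    (h : ∀ [Fact (Nat.Prime 17)], IsSquare ((m * m' : ℤ) : ℚ_[17])) :
    jacobiSym m 17 = jacobiSym m' 17 := by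
  haveI : Fact (Nat.Prime 17) := ⟨by norm_num⟩
  by_cases hd : ((17 : ℕ) : ℤ) ∣ m
  · have hd' := dvd_of hm h hd
    have z : ∀ n : ℤ, ((17 : ℕ) : ℤ) ∣ n → jacobiSym n 17 = 0 := by
      intro n hn
      rw [jacobiSym.eq_zero_iff_not_coprime]
      intro h1
      have h2 : (17 : ℕ) ∣ Int.gcd n ((17 : ℕ) : ℤ) := by
        apply Int.natCast_dvd_natCast.1
        exact Int.dvd_coe_gcd hn dvd_rfl
      rw [h1] at h2
      norm_num at h2
    rw [z m hd, z m' hd']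
  · have hd' : ¬ ((17 : ℕ) : ℤ) ∣ m' := fun h1 => hd (dvd_of hm' (comm_sq h) h1)
    obtain ⟨n, hn⟩ := sq_int h 1
    rw [pow_one] at hn
    have hcop : ∀ t : ℤ, ¬ ((17 : ℕ) : ℤ) ∣ t → t.gcd ((17 : ℕ) : ℤ) = 1 := by
      intro t ht
      rw [Int.gcd_comm]
      exact (Int.isCoprime_iff_gcd_eq_one).1
        (((Nat.prime_iff_prime_int.1 (by norm_num : Nat.Prime 17)).coprime_iff_not_dvd).2 ht)
    have hnn : ¬ ((17 : ℕ) : ℤ) ∣ n := by
      intro h1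
      have h2 : ((17 : ℕ) : ℤ) ∣ m * m' := by
        have := dvd_add hn (Dvd.dvd.trans h1 (dvd_pow_self n two_ne_zero))
        rwa [sub_add_cancel] at this
      rcases (Nat.prime_iff_prime_int.1 (by norm_num : Nat.Prime 17)).dvd_or_dvd h2 with h3 | h3
      · exact hd h3
      · exact hd' h3
    have h1 : jacobiSym (m * m') 17 = 1 := by
      have h2 : jacobiSym (m * m') 17 = jacobiSym (n ^ 2) 17 := by
        apply jacobiSym.mod_left'
        exact (Int.modEq_iff_dvd.2 hn).symm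
      rw [h2]
      exact jacobiSym.sq_one' (hcop n hnn)
    rw [jacobiSym.mul_left] at h1
    have h3 := jacobiSym.sq_one (hcop m' hd')
    calc jacobiSym m 17 = jacobiSym m 17 * (jacobiSym m' 17 ^ 2) := by rw [h3, mul_one]
      _ = (jacobiSym m 17 * jacobiSym m' 17) * jacobiSym m' 17 := by ring
      _ = jacobiSym m' 17 := by rw [h1, one_mul]

end Pool.Agent.H468.G4
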